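import Pool.Agent.N579.HI.Col

/-! The structure of solutions: the label of the junction does not depend on the position. -/

namespace Pool.Agent.N579.HI

open Finset Pool.Agent.H645R2.HT Pool.Agent.Helper446 Pool.Agent.Helper446.RE
  Pool.Agent.Helper446.Oracle

/-- Some fact with code `≤ FF x` changes on `[u, v]`. -/
def chg (H : ℕ → ℕ → ℕ) (_s x u v : ℕ) : Bool :=
  exB (fun z => exB (fun c => decide (u ≤ c) && !(decide (H z c = H z u))) (v + 1)) (FF x + 1)

theorem chg_iff {H : ℕ → ℕ → ℕ} {s x u v : ℕ} : chg H s x u v = true ↔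
    ∃ z ≤ FF x, ∃ c ≤ v, u ≤ c ∧ H z c ≠ H z u := by
  unfold chg
  simp only [exB_iff, Bool.and_eq_true, Bool.not_eq_true', decide_eq_true_eq,
    decide_eq_false_iff_not, Nat.lt_succ_iff, ne_eq]

/-- All facts have limits. -/
def Cv (H : ℕ → ℕ → ℕ) : Prop := ∀ z, ∃ s₀, ∀ s, s₀ ≤ s → H z s = H z s₀

theorem exists_stab {H : ℕ → ℕ → ℕ} (hc : Cv H) (M : ℕ) :
    ∃ N, ∀ z ≤ M, ∀ c, N ≤ c → H z c = H z N := by
  choose s hs using hc
  refine ⟨(range (M + 1)).sup s, fun z hz c h1 => ?_⟩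
  have h2 : s z ≤ (range (M + 1)).sup s := le_sup (f := s) (by rw [mem_range]; omega)
  rw [hs z c (by omega), hs z _ h2]

variable {H : ℕ → ℕ → ℕ} {X : Set ℕ}

theorem modH (hc : Cv H) (hp : Ps X) (hf : Far X) (he : Eq2 (C (chg H)) X) :
    ∀ h ∈ X, ∀ z ≤ FF (la h), ∀ s, mu h ≤ s → H z s = H z (mu h) := by
  intro h hh z hz s hs
  by_contra hne
  obtain ⟨N, hN⟩ := exists_stab hc (FF (la h))
  obtain ⟨l, hl, hll⟩ := hf (max (max N s) (mu h))
  have h1 : Sep h l := by unfold Pool.Agent.H645R2.HT.Sep; omega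
  have h2 := he h hh l hl h1
  unfold C at h2
  rw [gs_add (hp h hh) (hp l hl) h1, mu_add (hp l hl) h1, la_add (hp h hh) h1] at h2
  have e1 : gs (chg H (mu l) (la h)) (L l) = false := by
    refine gs_false (L_sorted l).pairwise fun a ha b hb _ => ?_
    rw [← Bool.not_eq_true, chg_iff]
    rintro ⟨z', hz', c, _, h4, h5⟩
    have h6 := la_le ha
    exact h5 (by rw [hN z' hz' c (by omega), hN z' hz' a (by omega)])
  have e2 : chg H (mu l) (la h) (mu h) (la l) = true :=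
    chg_iff.2 ⟨z, hz, s, by omega, hs, hne⟩
  have e3 : gs (chg H (mu h) (la h)) (L h) = gs (chg H (mu l) (la h)) (L h) := rfl
  rw [e1, e2, e3] at h2
  revert h2
  generalize gs (chg H (mu l) (la h)) (L h) = a
  revert a
  decide

/-- The colour given by the weighted sum. -/
def cE (H : ℕ → ℕ → ℕ) (k n : ℕ) : ℕ := EB H (2 * k) n % KK k

theorem cE_eq {k m n : ℕ} (h : cE H k m = cE H k n) :
    EF H (ZMod (KK k)) ((2 * k : ℕ) : ZMod (KK k)) (la m) (D m) =
      EF H (ZMod (KK k)) ((2 * k : ℕ) : ZMod (KK k)) (la n) (D n) := by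
  rw [← EB_eq, ← EB_eq]
  exact (ZMod.natCast_eq_natCast_iff _ _ _).2 h

/-- Equality of the colours of `w` and `w + l`, for `w` an element or the sum of two. -/
structure EqE (c : ℕ → ℕ) (X : Set ℕ) : Prop where
  one : ∀ h ∈ X, ∀ l ∈ X, Sep h l → c h = c (h + l)
  two : ∀ h ∈ X, ∀ k ∈ X, ∀ l ∈ X, Sep h k → Sep k l → c (h + k) = c (h + k + l)

theorem structure_thm {k : ℕ} (hk : ∀ z s, H z s < k) (hc : Cv H) (hp : Ps X) (hf : Far X)
    (he : Eq2 (C (chg H)) X) (hE : EqE (cE H k) X) {h l : ℕ} (hh : h ∈ X) (hl : l ∈ X)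
    (hs : Sep h l) : ∃ N, ∀ y ∈ X, N < la y → ∀ s, mu y ≤ s →
      H (tr (la h) (mu h) (la y)) s = H (tr (la h) (mu l) (la y)) s := by
  have hM := modH hc hp hf he
  obtain ⟨N, hN⟩ := exists_stab hc (FF (mu l))
  refine ⟨max N (mu l), fun y hy hNy s hsy => ?_⟩
  have p1 := hp h hh
  have p2 := hp l hl
  have p3 := hp y hy
  have s1 : Sep l y := by unfold Pool.Agent.H645R2.HT.Sep; omega
  have s2 : Sep h y := sep_trans p2 hs s1
  have s3 : Sep (h + l) y := sep_add_left p2 hs s1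
  have q1 : mu (h + l) = mu l := mu_add p2 hs
  have q2 : la (h + l) = la h := la_add p1 hs
  have q3 := la_le_mu p1
  have q4 := la_le_mu p2
  have hs' := hs
  have s2' := s2
  unfold Pool.Agent.H645R2.HT.Sep at hs' s2'
  have j1 := jn p1 p3 s2
  have j2 := jn (w := h + l) (by omega) p3 s3
  rw [q1] at j2
  have f2 : Fa H (mu l) (la y) := fun z hz c hc' => by
    rw [hN z hz c (by omega), hN z hz (la y) (by omega)]
  have f1 : Fa H (mu h) (la y) := fun z hz c hc' => f2 z (hz.trans (FF_mono (by omega))) c hc'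
  have x1 : ∀ a ∈ D h, la h ≤ a := fun a ha => la_le (List.mem_toFinset.1 ha)
  have x2 : ∀ a ∈ D (h + l), la h ≤ a := fun a ha => by
    rw [← q2]; exact la_le (List.mem_toFinset.1 ha)
  have e1 := cE_eq (hE.one h hh y hy s2)
  have e2 := cE_eq (hE.two h hh l hl y hy hs s1)
  rw [D_add s2, la_add p1 s2] at e1
  rw [D_add s3, la_add (by omega) s3, q2] at e2
  have key := label_eq j1 j2 f1 f2 x1 x2 hk e1 e2
  have r1 : tr (la h) (mu h) (la y) ≤ FF (la y) := tr_le (by omega) (by omega) le_rfl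
  have r2 : tr (la h) (mu l) (la y) ≤ FF (la y) := by
    unfold Pool.Agent.H645R2.HT.Sep at s1
    exact tr_le (by omega) (by omega) le_rfl
  rw [hM y hy _ r1 s hsy, hM y hy _ r2 s hsy]
  exact key

/-- The limit of the facts is the same at `mu h` and at `mu l`. -/
theorem limit_eq {k : ℕ} (hk : ∀ z s, H z s < k) (hc : Cv H) (hp : Ps X) (hf : Far X)
    (he : Eq2 (C (chg H)) X) (hE : EqE (cE H k) X) {g : ℕ → ℕ → ℕ}
    (hg : ∀ x u, ∃ q₀, ∀ q, q₀ ≤ q → ∃ s₀, ∀ s, s₀ ≤ s → H (tr x u q) s = g x u)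
    {h l : ℕ} (hh : h ∈ X) (hl : l ∈ X) (hs : Sep h l) : g (la h) (mu h) = g (la h) (mu l) := by
  obtain ⟨N, hN⟩ := structure_thm hk hc hp hf he hE hh hl hs
  obtain ⟨q1, h1⟩ := hg (la h) (mu h)
  obtain ⟨q2, h2⟩ := hg (la h) (mu l)
  obtain ⟨y, hy, hy2⟩ := hf (max N (max q1 q2))
  obtain ⟨s1, h3⟩ := h1 (la y) (by omega)
  obtain ⟨s2, h4⟩ := h2 (la y) (by omega)
  have h5 := hN y hy (by omega) (max (mu y) (max s1 s2)) (by omega)
  rw [h3 _ (by omega), h4 _ (by omega)] at h5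
  exact h5

section comp

variable {α : Type*} [Primcodable α] (hH : Computable fun p : ℕ × ℕ => H p.1 p.2)

include hH

theorem c_chg : Computable fun p : (ℕ × ℕ) × ℕ × ℕ => chg H p.1.1 p.1.2 p.2.1 p.2.2 := by
  unfold chg
  refine computable_exB (q := fun (p : (ℕ × ℕ) × ℕ × ℕ) z => exB (fun c =>
    decide (p.2.1 ≤ c) && !(decide (H z c = H z p.2.1))) (p.2.2 + 1)) ?_ ?_
  · unfold Computable₂
    refine computable_exB (q := fun (y : ((ℕ × ℕ) × ℕ × ℕ) × ℕ) c =>
      decide (y.1.2.1 ≤ c) && !(decide (H y.2 c = H y.2 y.1.2.1))) ?_ (by fun_prop)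
    unfold Computable₂
    refine cand (c_dle (by fun_prop) (by fun_prop)) (cnot (c_deq ?_ ?_))
    · exact c_H hH (by fun_prop) (by fun_prop)
    · exact c_H hH (by fun_prop) (by fun_prop)
  · have := c_FF (f := fun p : (ℕ × ℕ) × ℕ × ℕ => p.1.2) (by fun_prop)
    fun_prop

theorem c_cE (k : ℕ) : Computable (cE H k) := by
  unfold cE
  have h1 := c_EB hH (2 * k) (f := fun n : ℕ => n) (by fun_prop)
  exact (Primrec.nat_mod.to_comp).comp h1 (Computable.const _)

end comp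

end Pool.Agent.N579.HI
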