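import Pool.Agent.H645R2.HT.PartBc
import Pool.Agent.N579.HI.Str

/-! Approximation of a colouring of pairs with `Σ⁰₃` graph. -/

namespace Pool.Agent.N579.HI

open Finset Pool.Agent.H645R2.HT Pool.Agent.Helper446 Pool.Agent.Helper446.RE
  Pool.Agent.Helper446.Oracle

variable {R : ℕ → ℕ → ℕ → ℕ → ℕ → ℕ → Bool} {k : ℕ}

/-- The candidate `v = ⟨a, t⟩` looks right. -/
def tA (R : ℕ → ℕ → ℕ → ℕ → ℕ → ℕ → Bool) (k z s v : ℕ) : Bool :=
  decide (v.unpair.2 < k) && allB (fun b => exB (fun c => R z.unpair.1 z.unpair.2.unpair.1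
    v.unpair.2 v.unpair.1 b c) (s + 1)) (z.unpair.2.unpair.2 + 1)

theorem tA_iff {x u q s v : ℕ} : tA R k (tr x u q) s v = true ↔
    v.unpair.2 < k ∧ ∀ b ≤ q, ∃ c ≤ s, R x u v.unpair.2 v.unpair.1 b c = true := by
  unfold tA tr
  simp only [Bool.and_eq_true, decide_eq_true_eq, allB_iff, exB_iff, Nat.unpair_pair,
    Nat.lt_succ_iff]

/-- The approximation. -/
def HA (R : ℕ → ℕ → ℕ → ℕ → ℕ → ℕ → Bool) (k z s : ℕ) : ℕ :=
  bif decide (lst (tA R k z s) (z.unpair.2.unpair.2 + 1) < z.unpair.2.unpair.2 + 1) then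
    (lst (tA R k z s) (z.unpair.2.unpair.2 + 1)).unpair.2 else 0

theorem HA_lt (hk : 0 < k) (z s : ℕ) : HA R k z s < k := by
  unfold HA
  cases h : decide (lst (tA R k z s) (z.unpair.2.unpair.2 + 1) < z.unpair.2.unpair.2 + 1)
  · exact hk
  · rw [decide_eq_true_iff] at h
    have h1 := lst_of_lt h
    unfold tA at h1
    rw [Bool.and_eq_true, decide_eq_true_iff] at h1
    exact h1.1

theorem tA_mono {z s s' v : ℕ} (h : s ≤ s') (h1 : tA R k z s v = true) :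
    tA R k z s' v = true := by
  unfold tA at *
  simp only [Bool.and_eq_true, decide_eq_true_eq, allB_iff, exB_iff, Nat.lt_succ_iff] at *
  refine ⟨h1.1, fun b hb => ?_⟩
  obtain ⟨c, hc, h2⟩ := h1.2 b hb
  exact ⟨c, by omega, h2⟩

theorem lst_congr {q q' : ℕ → Bool} {n : ℕ} (h : ∀ i < n, q i = q' i) : lst q n = lst q' n := by
  rcases lst_spec q n with ⟨a1, a2, a3⟩ | ⟨a1, a2⟩
  · rcases lst_spec q' n with ⟨b1, b2, b3⟩ | ⟨b1, b2⟩
    · rcases Nat.lt_trichotomy (lst q n) (lst q' n) with h1 | h1 | h1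
      · have := b3 _ h1
        rw [← h _ a1, a2] at this
        cases this
      · exact h1
      · have := a3 _ h1
        rw [h _ b1, b2] at this
        cases this
    · have := b2 _ a1
      rw [← h _ a1, a2] at this
      cases this
  · rcases lst_spec q' n with ⟨b1, b2, b3⟩ | ⟨b1, b2⟩
    · have := a2 _ b1
      rw [h _ b1, b2] at this
      cases this
    · rw [a1, b1]

theorem HA_cv : Cv (HA R k) := by
  intro z
  have h1 : ∀ v, ∃ s₀, ∀ s, s₀ ≤ s → tA R k z s v = tA R k z s₀ v := by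
    intro v
    by_cases h : ∃ s, tA R k z s v = true
    · obtain ⟨s₀, hs⟩ := h
      exact ⟨s₀, fun s hss => by rw [hs, tA_mono hss hs]⟩
    · push Not at h
      refine ⟨0, fun s _ => ?_⟩
      rw [Bool.eq_false_iff.2 (h s), Bool.eq_false_iff.2 (h 0)]
  choose f hf using h1
  refine ⟨(range (z.unpair.2.unpair.2 + 1)).sup f, fun s hs => ?_⟩
  have e : lst (tA R k z s) (z.unpair.2.unpair.2 + 1) =
      lst (tA R k z ((range (z.unpair.2.unpair.2 + 1)).sup f)) (z.unpair.2.unpair.2 + 1) := by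
    refine lst_congr fun i hi => ?_
    have h2 : f i ≤ (range (z.unpair.2.unpair.2 + 1)).sup f :=
      le_sup (f := f) (mem_range.2 hi)
    rw [hf i s (by omega), hf i _ h2]
  unfold HA
  rw [e]

theorem HA_lim {g : ℕ → ℕ → ℕ} (hgk : ∀ a b, g a b < k)
    (hg : ∀ a b t, g a b = t ↔ ∃ u, ∀ v, ∃ w, R a b t u v w = true) (x u : ℕ) :
    ∃ q₀, ∀ q, q₀ ≤ q → ∃ s₀, ∀ s, s₀ ≤ s → HA R k (tr x u q) s = g x u := by
  classical
  have hex : ∃ v : ℕ, v.unpair.2 < k ∧ ∀ b, ∃ c, R x u v.unpair.2 v.unpair.1 b c = true := by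
    obtain ⟨a, ha⟩ := (hg x u _).1 rfl
    exact ⟨Nat.pair a (g x u), by rw [Nat.unpair_pair]; exact hgk _ _,
      by rw [Nat.unpair_pair]; exact ha⟩
  obtain ⟨v, hv, hmin⟩ : ∃ v : ℕ, (v.unpair.2 < k ∧
      ∀ b, ∃ c, R x u v.unpair.2 v.unpair.1 b c = true) ∧
      ∀ v' < v, ¬ (v'.unpair.2 < k ∧ ∀ b, ∃ c, R x u v'.unpair.2 v'.unpair.1 b c = true) :=
    ⟨Nat.find hex, Nat.find_spec hex, fun v' h => Nat.find_min hex h⟩
  have hgv : g x u = v.unpair.2 := (hg x u _).2 ⟨v.unpair.1, hv.2⟩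
  have h1 : ∀ v', ∃ b, v' < v → v'.unpair.2 < k →
      ∀ c, R x u v'.unpair.2 v'.unpair.1 b c ≠ true := by
    intro v'
    by_cases h : v' < v
    · by_cases h2 : v'.unpair.2 < k
      · have h3 := hmin v' h
        push Not at h3
        obtain ⟨b, hb⟩ := h3 h2
        exact ⟨b, fun _ _ => hb⟩
      · exact ⟨0, fun _ h3 => absurd h3 h2⟩
    · exact ⟨0, fun h3 => absurd h3 h⟩
  choose b hb using h1
  refine ⟨max v ((range v).sup b), fun q hq => ?_⟩
  choose c hc using hv.2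
  refine ⟨(range (q + 1)).sup c, fun s hs => ?_⟩
  have h2 : tA R k (tr x u q) s v = true := by
    rw [tA_iff]
    refine ⟨hv.1, fun i hi => ⟨c i, ?_, hc i⟩⟩
    have : c i ≤ (range (q + 1)).sup c := le_sup (f := c) (mem_range.2 (by omega))
    omega
  have h3 : ∀ v' < v, tA R k (tr x u q) s v' = false := by
    intro v' hv'
    rw [Bool.eq_false_iff]
    intro h4
    rw [tA_iff] at h4
    have h5 : b v' ≤ (range v).sup b := le_sup (f := b) (mem_range.2 hv')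
    obtain ⟨w, _, hw⟩ := h4.2 (b v') (by omega)
    exact hb v' hv' h4.1 w hw
  have h4 : lst (tA R k (tr x u q) s) (q + 1) = v := by
    obtain ⟨a1, a2, a3⟩ := lst_lt_of (q := tA R k (tr x u q) s) (n := q + 1) (i := v)
      (by omega) h2
    rcases a1.lt_or_eq with h5 | h5
    · rw [h3 _ h5] at a3
      cases a3
    · exact h5
  unfold HA
  have h5 : (tr x u q).unpair.2.unpair.2 = q := by simp [tr]
  rw [h5, h4, decide_eq_true (show v < q + 1 by omega), cond_true, hgv]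

theorem c_tA (hR : Computable fun q : ℕ × ℕ × ℕ × ℕ × ℕ × ℕ =>
    R q.1 q.2.1 q.2.2.1 q.2.2.2.1 q.2.2.2.2.1 q.2.2.2.2.2) :
    Computable fun p : ℕ × ℕ × ℕ => tA R k p.1 p.2.1 p.2.2 := by
  unfold tA
  refine cand (c_dlt (by fun_prop) (by fun_prop)) ?_
  refine computable_allB (q := fun (p : ℕ × ℕ × ℕ) b => exB (fun c => R p.1.unpair.1
    p.1.unpair.2.unpair.1 p.2.2.unpair.2 p.2.2.unpair.1 b c) (p.2.1 + 1)) ?_ (by fun_prop)
  unfold Computable₂
  refine computable_exB (q := fun (y : (ℕ × ℕ × ℕ) × ℕ) c => R y.1.1.unpair.1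
    y.1.1.unpair.2.unpair.1 y.1.2.2.unpair.2 y.1.2.2.unpair.1 y.2 c) ?_ (by fun_prop)
  unfold Computable₂
  exact hR.comp (g := fun x : ((ℕ × ℕ × ℕ) × ℕ) × ℕ => (x.1.1.1.unpair.1,
    x.1.1.1.unpair.2.unpair.1, x.1.1.2.2.unpair.2, x.1.1.2.2.unpair.1, x.1.2, x.2))
    (by fun_prop)

theorem c_HA (hR : Computable fun q : ℕ × ℕ × ℕ × ℕ × ℕ × ℕ =>
    R q.1 q.2.1 q.2.2.1 q.2.2.2.1 q.2.2.2.2.1 q.2.2.2.2.2) :
    Computable fun p : ℕ × ℕ => HA R k p.1 p.2 := by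
  have h1 : Computable fun p : ℕ × ℕ => lst (tA R k p.1 p.2) (p.1.unpair.2.unpair.2 + 1) := by
    refine c_lst (q := fun (p : ℕ × ℕ) v => tA R k p.1 p.2 v) ?_ (by fun_prop)
    exact (c_tA (k := k) hR).comp (g := fun x : (ℕ × ℕ) × ℕ => (x.1.1, x.1.2, x.2))
      (by fun_prop)
  unfold HA
  exact ccond (c_dlt h1 (by fun_prop)) (by fun_prop) (by fun_prop)

end Pool.Agent.N579.HI
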