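import Pool.Agent.N579.HI.Gap

/-! Reading off the equality of the labels of two junctions. -/

namespace Pool.Agent.N579.HI

open Finset

/-- The modulus. -/
def KK (k : ℕ) : ℕ := 2 * k ^ 2 + 1

instance (k : ℕ) : NeZero (KK k) := ⟨by unfold KK; omega⟩

theorem unit_mu (k : ℕ) : ((2 * k : ℕ) : ZMod (KK k)) * (-(k : ZMod (KK k))) = 1 := by
  have h : ((KK k : ℕ) : ZMod (KK k)) = 0 := ZMod.natCast_self _
  have h2 : ((2 * k ^ 2 + 1 : ℕ) : ZMod (KK k)) = 0 := by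
    rw [← h]; rfl
  push_cast at h2 ⊢
  linear_combination (-1 : ZMod (KK k)) * h2

theorem bracket_zero {k n : ℕ} {a b : ZMod (KK k)}
    (h : a = a + ((2 * k : ℕ) : ZMod (KK k)) ^ n * b) : b = 0 := by
  have h1 : ((2 * k : ℕ) : ZMod (KK k)) ^ n * b = 0 := by
    linear_combination -h
  have h2 : (((2 * k : ℕ) : ZMod (KK k)) * (-(k : ZMod (KK k)))) ^ n = 1 := by
    rw [unit_mu, one_pow]
  rw [mul_pow] at h2
  calc b = 1 * b := (one_mul b).symm
    _ = ((-(k : ZMod (KK k))) ^ n) * (((2 * k : ℕ) : ZMod (KK k)) ^ n * b) := by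
        rw [← h2]; ring
    _ = 0 := by rw [h1, mul_zero]

theorem int_decode {k : ℕ} {d d' a b : ℤ} (hd : |d| < k) (hd' : |d'| < k) (ha : 0 ≤ a)
    (ha' : a < k) (hb : 0 ≤ b) (hb' : b < k)
    (h : (KK k : ℤ) ∣ (d - d') + 2 * k * (a - b)) : a = b := by
  obtain ⟨c, hc⟩ := h
  rw [abs_lt] at hd hd'
  have hK : (KK k : ℤ) = 2 * (k : ℤ) ^ 2 + 1 := by unfold KK; push_cast; ring
  rw [hK] at hc
  have hk : (1 : ℤ) ≤ k := by omega
  have hc0 : c = 0 := by
    by_contra hne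
    rcases lt_or_gt_of_ne hne with h1 | h1
    · have : c ≤ -1 := by omega
      nlinarith
    · have : 1 ≤ c := by omega
      nlinarith
  rw [hc0, mul_zero] at hc
  by_contra hne
  rcases lt_or_gt_of_ne hne with h1 | h1
  · have : a - b ≤ -1 := by omega
    nlinarith
  · have : 1 ≤ a - b := by omega
    nlinarith

theorem label_eq {H : ℕ → ℕ → ℕ} {W W' V : Finset ℕ} {m m' q t x k : ℕ} (J : Jn W V m q t)
    (J' : Jn W' V m' q t) (hf : Fa H m q) (hf' : Fa H m' q) (hx : ∀ a ∈ W, x ≤ a)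
    (hx' : ∀ a ∈ W', x ≤ a) (hk : ∀ z s, H z s < k)
    (h : EF H (ZMod (KK k)) ((2 * k : ℕ) : ZMod (KK k)) x W =
      EF H (ZMod (KK k)) ((2 * k : ℕ) : ZMod (KK k)) x (W ∪ V))
    (h' : EF H (ZMod (KK k)) ((2 * k : ℕ) : ZMod (KK k)) x W' =
      EF H (ZMod (KK k)) ((2 * k : ℕ) : ZMod (KK k)) x (W' ∪ V)) :
    H (tr x m q) t = H (tr x m' q) t := by
  obtain ⟨n, d, hd, e⟩ := main_sum J hf ((2 * k : ℕ) : ZMod (KK k)) hx hk
  obtain ⟨n', d', hd', e'⟩ := main_sum J' hf' ((2 * k : ℕ) : ZMod (KK k)) hx' hk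
  rw [e] at h
  rw [e'] at h'
  have h1 := bracket_zero h
  have h2 := bracket_zero h'
  have h3 : (((d - d') + 2 * k * ((H (tr x m q) t : ℤ) - H (tr x m' q) t) : ℤ) :
      ZMod (KK k)) = 0 := by
    push_cast at h1 h2 ⊢
    linear_combination h1 - h2
  have h4 := (ZMod.intCast_zmod_eq_zero_iff_dvd _ _).1 h3
  have := int_decode hd hd' (by positivity) (by exact_mod_cast hk _ _) (by positivity)
    (by exact_mod_cast hk _ _) h4
  exact_mod_cast this

end Pool.Agent.N579.HI
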