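import Pool.Agent.H645R2.HT.Mod
import Pool.Agent.H645R2.HT.PartB
import Pool.Agent.N579.HI.Decode

/-! The weighted sum of labels as a computable function of the number. -/

namespace Pool.Agent.N579.HI

open Finset Pool.Agent.H645R2.HT Pool.Agent.Helper446 Pool.Agent.Helper446.RE
  Pool.Agent.Helper446.Oracle

/-- The set of positions. -/
def D (n : ℕ) : Finset ℕ := (L n).toFinset

theorem mem_D {n i : ℕ} : i ∈ D n ↔ dg i n ≠ 0 := by
  unfold D
  rw [List.mem_toFinset, mem_L]

theorem D_add {m n : ℕ} (h : Sep m n) : D (m + n) = D m ∪ D n := by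
  unfold D
  rw [L_add h, List.toFinset_append]

theorem D_lt {n i : ℕ} (h : i ∈ D n) : i < n := dg_lt (mem_D.1 h)

theorem jn {w y : ℕ} (hw : 0 < w) (hy : 0 < y) (h : Sep w y) :
    Jn (D w) (D y) (mu w) (la y) (mu y) where
  mW := List.mem_toFinset.2 (mu_mem hw)
  leW a ha := le_mu (List.mem_toFinset.1 ha)
  qV := List.mem_toFinset.2 (la_mem hy)
  leV b hb := la_le (List.mem_toFinset.1 hb)
  tV := List.mem_toFinset.2 (mu_mem hy)
  geV b hb := le_mu (List.mem_toFinset.1 hb)
  lt := h

/-- Bounded sums. -/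
def bsum (f : ℕ → ℕ) : ℕ → ℕ
  | 0 => 0
  | n + 1 => bsum f n + f n

theorem bsum_eq (f : ℕ → ℕ) (n : ℕ) : bsum f n = ∑ i ∈ range n, f i := by
  induction n with
  | zero => rfl
  | succ n ih => rw [bsum, ih, sum_range_succ]

/-- The greatest `i < n` with `q i`. -/
def grt (q : ℕ → Bool) : ℕ → ℕ
  | 0 => 0
  | n + 1 => bif q n then n else grt q n

theorem grt_eq (q : ℕ → Bool) (n : ℕ) :
    grt q n = ((range n).filter fun i => q i = true).sup id := by
  induction n with
  | zero => rfl
  | succ n ih =>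
    rw [grt, range_add_one, filter_insert]
    cases h : q n
    · simp [ih]
    · simp only [cond_true, if_true, sup_insert, id]
      refine (max_eq_left ?_).symm
      refine Finset.sup_le fun i hi => ?_
      rw [mem_filter, mem_range] at hi
      simp only [id]
      omega

/-- `(p, q)` is a gap of `n`. -/
def gapB (n p q : ℕ) : Bool := decide (dg p n ≠ 0) && (decide (dg q n ≠ 0) && (decide (p < q) &&
  allB (fun c => !(decide (p < c) && (decide (c < q) && decide (dg c n ≠ 0)))) n))

theorem gapB_iff {n p q : ℕ} : gapB n p q = true ↔ (p, q) ∈ gaps (D n) := by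
  unfold gapB
  rw [mem_gaps, mem_D, mem_D]
  simp only [Bool.and_eq_true, decide_eq_true_eq, allB_iff, Bool.not_eq_true',
    Bool.and_eq_false_iff, decide_eq_false_iff_not]
  refine and_congr_right fun h1 => and_congr_right fun h2 => and_congr_right fun h3 => ?_
  constructor
  · intro h c hc
    have := h c (D_lt hc)
    rw [mem_D] at hc
    rintro ⟨a1, a2⟩
    tauto
  · intro h c _
    by_cases hc : c ∈ D n
    · have := h c hc
      tauto
    · rw [mem_D] at hc
      tauto

/-- The test for looking true. -/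
def StB (H : ℕ → ℕ → ℕ) (p q r : ℕ) : Bool :=
  allB (fun z => allB (fun c => !(decide (q ≤ c)) || decide (H z c = H z q)) (r + 1)) (FF p + 1)

theorem StB_iff {H : ℕ → ℕ → ℕ} {p q r : ℕ} : StB H p q r = true ↔ St H p q r := by
  unfold StB St
  simp only [allB_iff, Bool.or_eq_true, Bool.not_eq_true', decide_eq_true_eq,
    decide_eq_false_iff_not, Nat.lt_succ_iff]
  refine forall_congr' fun z => forall_congr' fun hz => forall_congr' fun c => ?_
  constructor
  · intro h h1 h2
    rcases h h2 with h3 | h3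
    · exact absurd h1 h3
    · exact h3
  · intro h h2
    by_cases h1 : q ≤ c
    · exact Or.inr (h h1 h2)
    · exact Or.inl h1

/-- The number of earlier gaps which look true. -/
def depB (H : ℕ → ℕ → ℕ) (n p q : ℕ) : ℕ :=
  bsum (fun a => bsum (fun b => bif gapB n a b && (decide (b ≤ p) && StB H a b q) then 1 else 0)
    n) n

theorem sum_gaps {R : Type} [AddCommMonoid R] (n : ℕ) (P : ℕ → ℕ → Prop)
    [∀ a b, Decidable (P a b)] (f : ℕ → ℕ → R) :
    ∑ a ∈ range n, ∑ b ∈ range n, (if (a, b) ∈ gaps (D n) ∧ P a b then f a b else 0) =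
      ∑ γ ∈ (gaps (D n)).filter (fun γ => P γ.1 γ.2), f γ.1 γ.2 := by
  rw [← sum_product', ← sum_filter]
  refine sum_congr ?_ fun _ _ => rfl
  ext γ
  simp only [mem_filter, mem_product, mem_range]
  constructor
  · rintro ⟨_, h⟩
    exact h
  · intro h
    have h1 := mem_gaps.1 h.1
    exact ⟨⟨D_lt h1.1, D_lt h1.2.1⟩, h⟩

theorem depB_eq {H : ℕ → ℕ → ℕ} {n p q : ℕ} : depB H n p q = dep H (D n) (p, q) := by
  unfold depB dep
  rw [bsum_eq]
  simp only [bsum_eq]
  rw [card_eq_sum_ones, ← sum_gaps n (fun a b => b ≤ p ∧ St H a b q) (fun _ _ => 1)]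
  refine sum_congr rfl fun a _ => sum_congr rfl fun b _ => ?_
  rw [cond_eq_ite]
  refine if_congr ?_ rfl rfl
  rw [Bool.and_eq_true, Bool.and_eq_true, gapB_iff, StB_iff, decide_eq_true_iff]

/-- The last position up to which the gap looks true. -/
def enB (H : ℕ → ℕ → ℕ) (n p q : ℕ) : ℕ :=
  grt (fun r => decide (dg r n ≠ 0) && (decide (q ≤ r) && StB H p q r)) n

theorem enB_eq {H : ℕ → ℕ → ℕ} {n p q : ℕ} : enB H n p q = en H (D n) (p, q) := by
  unfold enB en
  rw [grt_eq]
  congr 1
  ext r
  simp only [mem_filter, mem_range, Bool.and_eq_true, decide_eq_true_eq, StB_iff, mem_D]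
  exact ⟨fun h => h.2, fun h => ⟨dg_lt h.1, h⟩⟩

/-- The computable version of the weighted sum. -/
def EB (H : ℕ → ℕ → ℕ) (μ n : ℕ) : ℕ :=
  bsum (fun p => bsum (fun q => bif gapB n p q then μ ^ (1 + depB H n p q) *
    H (tr (la n) p q) (enB H n p q) else 0) n) n

theorem EB_eq {H : ℕ → ℕ → ℕ} {μ n K : ℕ} :
    ((EB H μ n : ℕ) : ZMod K) = EF H (ZMod K) (μ : ZMod K) (la n) (D n) := by
  unfold EB EF
  rw [bsum_eq]
  simp only [bsum_eq]
  have h := sum_gaps n (fun _ _ => True) (fun p q => μ ^ (1 + depB H n p q) *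
    H (tr (la n) p q) (enB H n p q))
  have e : ∑ a ∈ range n, ∑ b ∈ range n, (bif gapB n a b then μ ^ (1 + depB H n a b) *
      H (tr (la n) a b) (enB H n a b) else 0) = ∑ γ ∈ gaps (D n),
      μ ^ (1 + depB H n γ.1 γ.2) * H (tr (la n) γ.1 γ.2) (enB H n γ.1 γ.2) := by
    rw [filter_true_of_mem fun _ _ => trivial] at h
    rw [← h]
    refine sum_congr rfl fun a _ => sum_congr rfl fun b _ => ?_
    rw [cond_eq_ite]
    refine if_congr ?_ rfl rfl
    rw [gapB_iff, and_true]
  rw [e, Nat.cast_sum]
  refine sum_congr rfl fun γ _ => ?_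
  rw [depB_eq, enB_eq]
  push_cast
  rfl

section comp

variable {α : Type*} [Primcodable α]

theorem c_bsum {f : α → ℕ → ℕ} (hf : Computable fun p : α × ℕ => f p.1 p.2) {g : α → ℕ}
    (hg : Computable g) : Computable fun a => bsum (f a) (g a) := by
  have h := Computable.nat_rec (f := g) (g := fun _ : α => (0 : ℕ))
    (h := fun (a : α) (y : ℕ × ℕ) => y.2 + f a y.1) hg (Computable.const 0) (by
      unfold Computable₂
      have h1 := hf.comp (g := fun x : α × (ℕ × ℕ) => (x.1, x.2.1)) (by fun_prop)
      dsimp only at h1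
      fun_prop)
  refine h.of_eq fun a => ?_
  generalize g a = n
  induction n with
  | zero => rfl
  | succ n ih => simp only [bsum]; rw [← ih]

theorem c_grt {q : α → ℕ → Bool} (hq : Computable fun p : α × ℕ => q p.1 p.2) {g : α → ℕ}
    (hg : Computable g) : Computable fun a => grt (q a) (g a) := by
  have h := Computable.nat_rec (f := g) (g := fun _ : α => (0 : ℕ))
    (h := fun (a : α) (y : ℕ × ℕ) => bif q a y.1 then y.1 else y.2) hg (Computable.const 0) (by
      unfold Computable₂
      have h1 := hq.comp (g := fun x : α × (ℕ × ℕ) => (x.1, x.2.1)) (by fun_prop)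
      dsimp only at h1
      fun_prop)
  refine h.of_eq fun a => ?_
  generalize g a = n
  induction n with
  | zero => rfl
  | succ n ih => simp only [grt]; rw [← ih]

theorem c_dle {f g : α → ℕ} (hf : Computable f) (hg : Computable g) :
    Computable fun a => decide (f a ≤ g a) := cdecide (cp_le hf hg)

theorem c_ne0 {f g : α → ℕ} (hf : Computable f) (hg : Computable g) :
    Computable fun a => decide (dg (f a) (g a) ≠ 0) := by
  have h := cnot (c_deq (c_dg hf hg) (Computable.const 0))
  refine h.of_eq fun a => ?_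
  rw [decide_not]

theorem c_gapB {f g i : α → ℕ} (hf : Computable f) (hg : Computable g) (hi : Computable i) :
    Computable fun a => gapB (f a) (g a) (i a) := by
  unfold gapB
  refine cand (c_ne0 hg hf) (cand (c_ne0 hi hf) (cand (c_dlt hg hi) ?_))
  refine computable_allB (q := fun (a : α) c => !(decide (g a < c) && (decide (c < i a) &&
    decide (dg c (f a) ≠ 0)))) ?_ hf
  unfold Computable₂
  exact cnot (cand (c_dlt (by fun_prop) (by fun_prop)) (cand (c_dlt (by fun_prop) (by fun_prop))
    (c_ne0 (by fun_prop) (by fun_prop))))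

theorem c_FF {f : α → ℕ} (hf : Computable f) : Computable fun a => FF (f a) := by
  unfold FF
  fun_prop

theorem c_tr {f g i : α → ℕ} (hf : Computable f) (hg : Computable g) (hi : Computable i) :
    Computable fun a => tr (f a) (g a) (i a) := by
  unfold tr
  fun_prop

variable {H : ℕ → ℕ → ℕ} (hH : Computable fun p : ℕ × ℕ => H p.1 p.2)

include hH

theorem c_H {f g : α → ℕ} (hf : Computable f) (hg : Computable g) :
    Computable fun a => H (f a) (g a) :=
  hH.comp (g := fun a => (f a, g a)) (by fun_prop)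

theorem c_StB {f g i : α → ℕ} (hf : Computable f) (hg : Computable g) (hi : Computable i) :
    Computable fun a => StB H (f a) (g a) (i a) := by
  unfold StB
  refine computable_allB (q := fun (a : α) z => allB (fun c => !(decide (g a ≤ c)) ||
    decide (H z c = H z (g a))) (i a + 1)) ?_ ?_
  · unfold Computable₂
    refine computable_allB (q := fun (y : α × ℕ) c => !(decide (g y.1 ≤ c)) ||
      decide (H y.2 c = H y.2 (g y.1))) ?_ (by fun_prop)
    unfold Computable₂
    refine cor (cnot (c_dle (by fun_prop) (by fun_prop))) (c_deq ?_ ?_)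
    · exact c_H hH (by fun_prop) (by fun_prop)
    · exact c_H hH (by fun_prop) (by fun_prop)
  · have := c_FF hf
    fun_prop

theorem c_depB {f g i : α → ℕ} (hf : Computable f) (hg : Computable g) (hi : Computable i) :
    Computable fun a => depB H (f a) (g a) (i a) := by
  unfold depB
  refine c_bsum (f := fun (a : α) x => bsum (fun b => bif gapB (f a) x b &&
    (decide (b ≤ g a) && StB H x b (i a)) then 1 else 0) (f a)) ?_ hf
  refine c_bsum (f := fun (y : α × ℕ) b => bif gapB (f y.1) y.2 b &&
    (decide (b ≤ g y.1) && StB H y.2 b (i y.1)) then 1 else 0) ?_ (by fun_prop)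
  refine ccond (cand (c_gapB (by fun_prop) (by fun_prop) (by fun_prop)) (cand
    (c_dle (by fun_prop) (by fun_prop)) (c_StB hH (by fun_prop) (by fun_prop) (by fun_prop))))
    (by fun_prop) (by fun_prop)

theorem c_enB {f g i : α → ℕ} (hf : Computable f) (hg : Computable g) (hi : Computable i) :
    Computable fun a => enB H (f a) (g a) (i a) := by
  unfold enB
  refine c_grt (q := fun (a : α) r => decide (dg r (f a) ≠ 0) && (decide (i a ≤ r) &&
    StB H (g a) (i a) r)) ?_ hf
  exact cand (c_ne0 (by fun_prop) (by fun_prop)) (cand (c_dle (by fun_prop) (by fun_prop))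
    (c_StB hH (by fun_prop) (by fun_prop) (by fun_prop)))

omit hH in
theorem c_powc (μ : ℕ) {f : α → ℕ} (hf : Computable f) : Computable fun a => μ ^ (f a) := by
  have h : Primrec (fun i : ℕ => (Nat.rec (motive := fun _ => ℕ) 1 (fun _ r => r * μ) i : ℕ)) :=
    Primrec.nat_rec₁ 1 (Primrec.nat_mul.comp Primrec.snd (Primrec.const μ)).to₂
  refine (h.to_comp.comp hf).of_eq fun a => ?_
  generalize f a = i
  induction i with
  | zero => rfl
  | succ i ih => rw [pow_succ, ← ih]

theorem c_EB (μ : ℕ) {f : α → ℕ} (hf : Computable f) : Computable fun a => EB H μ (f a) := by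
  unfold EB
  refine c_bsum (f := fun (a : α) p => bsum (fun q => bif gapB (f a) p q then
    μ ^ (1 + depB H (f a) p q) * H (tr (la (f a)) p q) (enB H (f a) p q) else 0) (f a)) ?_ hf
  refine c_bsum (f := fun (y : α × ℕ) q => bif gapB (f y.1) y.2 q then
    μ ^ (1 + depB H (f y.1) y.2 q) * H (tr (la (f y.1)) y.2 q) (enB H (f y.1) y.2 q) else 0)
    ?_ (by fun_prop)
  have h1 : Computable fun x : (α × ℕ) × ℕ => depB H (f x.1.1) x.1.2 x.2 :=
    c_depB hH (by fun_prop) (by fun_prop) (by fun_prop)
  have h2 : Computable fun x : (α × ℕ) × ℕ => μ ^ (1 + depB H (f x.1.1) x.1.2 x.2) :=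
    c_powc μ (by fun_prop)
  have h3 : Computable fun x : (α × ℕ) × ℕ => enB H (f x.1.1) x.1.2 x.2 :=
    c_enB hH (by fun_prop) (by fun_prop) (by fun_prop)
  have h4 : Computable fun x : (α × ℕ) × ℕ => tr (la (f x.1.1)) x.1.2 x.2 :=
    c_tr (by fun_prop) (by fun_prop) (by fun_prop)
  have h5 := c_H hH h4 h3
  refine ccond (c_gapB (by fun_prop) (by fun_prop) (by fun_prop)) ?_ (by fun_prop)
  exact (Primrec.nat_mul.to_comp).comp h2 h5

end comp

end Pool.Agent.N579.HI
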