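import Pool.Agent.N579.HI.Sq

/-! The colouring and its solutions. -/

namespace Pool.Agent.N579.HI

open Pool.Agent.H645R2.HT Pool.Agent.Helper446 Pool.Agent.Helper446.RE
  Pool.Agent.Helper446.Oracle

/-- The number of the colour. -/
def cv (H : ℕ → ℕ → ℕ) (k n : ℕ) : ℕ :=
  (pack3 (b0 n, C (g1 W0) n, C (g2 W0 p0) n)).val +
    8 * ((if C (chg H) n = true then 1 else 0) + 2 * cE H k n)

theorem cv_lt (H : ℕ → ℕ → ℕ) (k n : ℕ) : cv H k n < 16 * (2 * k ^ 2 + 1) := by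
  unfold cv
  have h1 := (pack3 (b0 n, C (g1 W0) n, C (g2 W0 p0) n)).isLt
  have h2 : cE H k n < 2 * k ^ 2 + 1 := Nat.mod_lt _ (by unfold KK; omega)
  split_ifs <;> omega

/-- The colouring. -/
def cc (H : ℕ → ℕ → ℕ) (k n : ℕ) : Fin (16 * (2 * k ^ 2 + 1)) := ⟨cv H k n, cv_lt H k n⟩

theorem c_fin {α : Type*} [Primcodable α] {m : ℕ} {c : α → Fin m}
    (h : Computable fun n => (c n : ℕ)) : Computable c :=
  Computable.encode_iff.1 (h.of_eq fun _ => rfl)

theorem c_cc {H : ℕ → ℕ → ℕ} (hH : Computable fun p : ℕ × ℕ => H p.1 p.2) (k : ℕ) :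
    Computable (cc H k) := by
  refine c_fin ?_
  show Computable (cv H k)
  unfold cv
  have h1 : Computable pack3 := (Primrec.dom_finite pack3).to_comp
  have h2 : Computable fun n => pack3 (b0 n, C (g1 W0) n, C (g2 W0 p0) n) := by
    refine h1.comp (c_b0.pair (Computable.pair (c_C (c_g1 c_W0)) (c_C ?_)))
    exact c_g2 c_W0 c_p0 (by fun_prop) (by fun_prop) (by fun_prop) (by fun_prop)
  have h3 : Computable fun n => (pack3 (b0 n, C (g1 W0) n, C (g2 W0 p0) n)).val :=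
    (Primrec.dom_finite (fun i : Fin 8 => i.val)).to_comp.comp h2
  have h4 : Computable (C (chg H)) := c_C (c_chg hH)
  have h5 : Computable fun n => (if C (chg H) n = true then 1 else 0 : ℕ) := by
    refine (ccond h4 (Computable.const 1) (Computable.const 0)).of_eq fun n => ?_
    cases C (chg H) n <;> rfl
  have h6 := c_cE hH k
  fun_prop

variable {H : ℕ → ℕ → ℕ} {k : ℕ} {X : Set ℕ}

theorem cv_inj {a b : ℕ} (h : cv H k a = cv H k b) :
    pack3 (b0 a, C (g1 W0) a, C (g2 W0 p0) a) = pack3 (b0 b, C (g1 W0) b, C (g2 W0 p0) b) ∧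
      C (chg H) a = C (chg H) b ∧ cE H k a = cE H k b := by
  unfold cv at h
  have h1 := (pack3 (b0 a, C (g1 W0) a, C (g2 W0 p0) a)).isLt
  have h2 := (pack3 (b0 b, C (g1 W0) b, C (g2 W0 p0) b)).isLt
  refine ⟨Fin.ext ?_, ?_, ?_⟩
  · split_ifs at h <;> omega
  · rw [Bool.eq_iff_iff]
    split_ifs at h with a1 a2 a2
    · exact ⟨fun _ => a2, fun _ => a1⟩
    · omega
    · omega
    · exact ⟨fun h => absurd h a1, fun h => absurd h a2⟩
  · split_ifs at h <;> omega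

/-- All facts on solutions. -/
structure Sol (H : ℕ → ℕ → ℕ) (k : ℕ) (X : Set ℕ) : Prop where
  ps : Ps X
  far : Far X
  mod : ModOK W0 X
  e3 : Eq3 (C (g2 W0 p0)) X
  ch : Eq2 (C (chg H)) X
  eE : EqE (cE H k) X

theorem const3_of {κ : Type} {f : ℕ → κ} (hc : Const3 (cc H k) X)
    (hf : ∀ a b, cv H k a = cv H k b → f a = f b) : Const3 f X := by
  obtain ⟨i, hi⟩ := hc
  by_cases hX : ∃ x, x ∈ X
  · obtain ⟨x, hx⟩ := hX
    refine ⟨f x, fun F h1 h2 h3 => hf _ _ ?_⟩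
    have e1 := hi F h1 h2 h3
    have e2 := hi {x} (by simpa using hx) (by simp) (by simp)
    rw [Finset.sum_singleton] at e2
    rw [← e2] at e1
    exact congrArg Fin.val e1
  · refine ⟨f 0, fun F h1 h2 h3 => ?_⟩
    obtain ⟨y, hy⟩ := h2
    exact absurd ⟨y, h1 hy⟩ hX

theorem sol (hX : X.Infinite) (h0 : 0 ∉ X) (hc : Const3 (cc H k) X) : Sol H k X := by
  have hp := ps_of h0
  have hu : Const3 (fun n => pack3 (b0 n, C (g1 W0) n, C (g2 W0 p0) n)) X :=
    const3_of hc fun a b h => (cv_inj h).1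
  have hu := hu.map unpack3
  simp only [unpack_pack3] at hu
  have hb0 : Const3 b0 X := hu.map fun q => q.1
  have hb1 : Const3 (C (g1 W0)) X := hu.map fun q => q.2.1
  have hb2 : Const3 (C (g2 W0 p0)) X := hu.map fun q => q.2.2
  have hb3 : Const3 (C (chg H)) X := const3_of hc fun a b h => (cv_inj h).2.1
  have hb4 : Const3 (cE H k) X := const3_of hc fun a b h => (cv_inj h).2.2
  have hf := hb0.far hX hp
  refine ⟨hp, hf, modOK mon_W0 hp hf (hb1.eq2 hp), hb2.eq3 hp, hb3.eq2 hp, ?_⟩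
  obtain ⟨i, h1, h2, h3⟩ := hb4.one
  constructor
  · intro h hh l hl hs
    rw [h1 h hh, h2 h hh l hl (sep_ne (hp h hh) hs)]
  · intro h hh l hl y hy hs hs'
    rw [h2 h hh l hl (sep_ne (hp h hh) hs), add_assoc, h3 h hh l hl y hy
      (sep_ne (hp h hh) hs) (sep_ne (hp h hh) (sep_trans (hp l hl) hs hs'))
      (sep_ne (hp l hl) hs')]

theorem Sol.sigma2 (h : Sol H k X) {R : ℕ → ℕ → ℕ → Bool}
    (hR : Computable fun q : ℕ × ℕ × ℕ => R q.1 q.2.1 q.2.2) :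
    REIn X (fun n => ∃ a, ∀ b, R n a b = true) ∧ REIn X (fun n => ¬ ∃ a, ∀ b, R n a b = true) := by
  obtain ⟨k1, k2⟩ := computes c_W0 c_p0 h.ps h.far h.mod h.e3
  obtain ⟨e, he⟩ := sigma2_univ hR
  exact ⟨(k1.comp (f := fun n : ℕ => Nat.pair e n) (by fun_prop)).of_eq fun n => (he n).symm,
    (k2.comp (f := fun n : ℕ => Nat.pair e n) (by fun_prop)).of_eq fun n =>
      not_congr (he n).symm⟩

/-- A solution enumerates every `Σ⁰₃` set. -/
theorem Sol.sigma3 (h : Sol H k X) {R : ℕ → ℕ → ℕ → ℕ → Bool}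
    (hR : Computable fun q : ℕ × ℕ × ℕ × ℕ => R q.1 q.2.1 q.2.2.1 q.2.2.2) :
    REIn X (fun n => ∃ a, ∀ b, ∃ c, R n a b c = true) := by
  have h1 := (h.sigma2 (R := fun n a b => !(R n.unpair.1 n.unpair.2 a b)) (by
    have := hR.comp (g := fun q : ℕ × ℕ × ℕ => (q.1.unpair.1, q.1.unpair.2, q.2.1, q.2.2))
      (by fun_prop)
    dsimp only at this
    fun_prop)).2
  have h2 : REIn X fun x : ℕ × ℕ => ¬ ∃ a, ∀ b,
      (!(R (Nat.pair x.1 x.2).unpair.1 (Nat.pair x.1 x.2).unpair.2 a b)) = true :=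
    h1.comp (f := fun x : ℕ × ℕ => Nat.pair x.1 x.2) (by fun_prop)
  refine (REIn.ex (S := fun n a => ¬ ∃ b, ∀ c,
    (!(R (Nat.pair n a).unpair.1 (Nat.pair n a).unpair.2 b c)) = true) h2).of_eq fun n => ?_
  refine exists_congr fun a => ?_
  simp only [Nat.unpair_pair]
  push Not
  simp

/-- Solutions compute increasing homogeneous pairs of sequences. -/
theorem Sol.pairs (h : Sol H k X) (hk : ∀ z s, H z s < k) (hcv : Cv H) {g : ℕ → ℕ → ℕ}
    (hlim : ∀ x u, ∃ q₀, ∀ q, q₀ ≤ q → ∃ s₀, ∀ s, s₀ ≤ s → H (tr x u q) s = g x u)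
    (hgk : ∀ a b, g a b < k)
    {R : ℕ → ℕ → ℕ → ℕ → ℕ → ℕ → Bool}
    (hR : Computable fun q : ℕ × ℕ × ℕ × ℕ × ℕ × ℕ =>
      R q.1 q.2.1 q.2.2.1 q.2.2.2.1 q.2.2.2.2.1 q.2.2.2.2.2)
    (hg : ∀ a b t, g a b = t ↔ ∃ u, ∀ v, ∃ w, R a b t u v w = true) :
    ∃ (f : ℕ → ℕ) (t : ℕ), TotIn X f ∧ (∀ n, f n ∈ X) ∧ (∀ n, mu (f n) < la (f (n + 1))) ∧
      ∀ i j, i ≤ j → g (la (f i)) (mu (f j)) = t := by
  classical
  have hst : ∀ h₁ ∈ X, ∀ l ∈ X, Pool.Agent.H645R2.HT.Sep h₁ l →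
      g (la h₁) (mu h₁) = g (la h₁) (mu l) := fun h₁ hh l hl hs =>
    limit_eq hk hcv h.ps h.far h.ch h.eE hlim hh hl hs
  -- a colour which occurs far out
  obtain ⟨t, -, ht⟩ : ∃ t, t < k ∧ ∀ N, ∃ x ∈ X, N < la x ∧ g (la x) (mu x) = t := by
    by_contra hcon
    push Not at hcon
    choose! N hN using hcon
    obtain ⟨x, hx, hx2⟩ := h.far ((Finset.range k).sup N)
    have h1 : N (g (la x) (mu x)) ≤ (Finset.range k).sup N :=
      Finset.le_sup (f := N) (Finset.mem_range.2 (hgk _ _))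
    exact hN _ (hgk _ _) x hx (by omega) rfl
  have hgr : ∀ s : ℕ, REIn X fun n : ℕ => g (la n) (mu n) = s := by
    intro s
    have h1 := h.sigma3 (R := fun n a b c => R (la n) (mu n) s a b c) (by
      exact hR.comp (g := fun q : ℕ × ℕ × ℕ × ℕ => (la q.1, mu q.1, s, q.2.1, q.2.2.1, q.2.2.2))
        (by fun_prop))
    exact h1.of_eq fun n => (hg _ _ _).symm
  have hne : REIn X fun n : ℕ => g (la n) (mu n) ≠ t := by
    have h1 := h.sigma3 (R := fun n a b c => R (la n) (mu n) a.unpair.1 a.unpair.2 b c &&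
        !(decide (a.unpair.1 = t))) (by
      have e1 := hR.comp (g := fun q : ℕ × ℕ × ℕ × ℕ => (la q.1, mu q.1, q.2.1.unpair.1,
        q.2.1.unpair.2, q.2.2.1, q.2.2.2)) (by fun_prop)
      exact cand e1 (cnot (c_deq (by fun_prop) (by fun_prop))))
    refine h1.of_eq fun n => ?_
    simp only [Bool.and_eq_true, Bool.not_eq_true', decide_eq_false_iff_not]
    constructor
    · rintro ⟨a, ha⟩
      have e2 : g (la n) (mu n) = a.unpair.1 := (hg _ _ _).2 ⟨a.unpair.2, fun v => by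
        obtain ⟨w, hw, _⟩ := ha v
        exact ⟨w, hw⟩⟩
      obtain ⟨_, _, h3⟩ := ha 0
      rw [e2]
      exact h3
    · intro h2
      obtain ⟨u, hu⟩ := (hg (la n) (mu n) _).1 rfl
      refine ⟨Nat.pair (g (la n) (mu n)) u, fun v => ?_⟩
      obtain ⟨w, hw⟩ := hu v
      exact ⟨w, by simpa using hw, by simpa using h2⟩
  have r1 : REIn X fun n : ℕ => n ∈ X ∧ g (la n) (mu n) = t :=
    REIn.and (REIn.mem Computable.id) (hgr t)
  have r2 : REIn X fun n : ℕ => ¬ (n ∈ X ∧ g (la n) (mu n) = t) := by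
    refine (REIn.or (REIn.not_mem Computable.id) hne).of_eq fun n => ?_
    simp only [id]
    tauto
  obtain ⟨f, f1, f2, f3⟩ := exists_seq r1 r2 fun N => by
    obtain ⟨x, hx, h1, h2⟩ := ht N
    exact ⟨x, ⟨hx, h2⟩, h1⟩
  refine ⟨f, t, f1, fun n => (f2 n).1, f3, fun i j hij => ?_⟩
  rcases hij.lt_or_eq with h1 | rfl
  · have h2 : Pool.Agent.H645R2.HT.Sep (f i) (f j) := by
      induction h1 with
      | refl => exact f3 i
      | @step m hm ih => exact sep_trans (h.ps _ (f2 m).1) (ih (Nat.le_of_succ_le hm)) (f3 m)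
    rw [← hst _ (f2 i).1 _ (f2 j).1 h2]
    exact (f2 i).2
  · exact (f2 i).2

end Pool.Agent.N579.HI
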