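import Pool.Agent.TH747.HS.DncK
import Pool.Agent.N579.HI.Fin

/-! Diagonalization against projections of `Π⁰₃` facts by a colouring of pairs. -/

namespace Pool.Agent.N579.HI

open Finset Pool.Agent.H645R2.HT Pool.Agent.Helper446 Pool.Agent.Helper446.RE
  Pool.Agent.Helper446.Oracle
open Pool.Agent.TH747.HT (ix Psi)

/-- All instances `≤ v` of the fact number `⟨e, c⟩` hold. -/
def alD (P : ℕ → ℕ → Bool) (e v c : ℕ) : Bool := allB (fun b => P (Nat.pair e c) b) (v + 1)

/-- The test for the candidate `c = ⟨h, a⟩`. -/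
def tstD (P : ℕ → ℕ → Bool) (e v : ℕ) (T : List ℕ) (c : ℕ) : Bool :=
  alD P e v c && (decide (0 < c.unpair.1) && (decide (mu c.unpair.1 < v) &&
    !(decide (la c.unpair.1 ∈ T))))

/-- The lowest positions taken at stage `v` by the requirements `< e`. -/
def TTD (P : ℕ → ℕ → Bool) (v : ℕ) : ℕ → List ℕ
  | 0 => []
  | e + 1 => bif decide (lst (tstD P e v (TTD P v e)) v < v) then
      la (lst (tstD P e v (TTD P v e)) v).unpair.1 :: TTD P v e else TTD P v e

/-- The candidate used by requirement `e` at stage `v`. -/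
def pkD (P : ℕ → ℕ → Bool) (v e : ℕ) : ℕ := lst (tstD P e v (TTD P v e)) v

/-- The history: the list of all `(v, x)` with `v < n` at which the value is `1`. -/
def HHD (P : ℕ → ℕ → Bool) : ℕ → List (ℕ × ℕ)
  | 0 => []
  | n + 1 => (List.range n).foldl (fun acc e =>
      bif decide (pkD P n e < n) &&
        !(decide ((mu (pkD P n e).unpair.1, la (pkD P n e).unpair.1) ∈ HHD P n))
      then (n, la (pkD P n e).unpair.1) :: acc else acc) (HHD P n)

/-- The colouring of pairs. -/
def gD (P : ℕ → ℕ → Bool) (x v : ℕ) : Bool := decide ((v, x) ∈ HHD P (v + 1))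

variable {P P' : ℕ → ℕ → Bool}

theorem alD_iff {e v c : ℕ} : alD P e v c = true ↔ ∀ b ≤ v, P (Nat.pair e c) b = true := by
  unfold alD
  simp only [allB_iff, Nat.lt_succ_iff]

theorem tstD_iff {e v : ℕ} {T : List ℕ} {c : ℕ} : tstD P e v T c = true ↔
    alD P e v c = true ∧ 0 < c.unpair.1 ∧ mu c.unpair.1 < v ∧ la c.unpair.1 ∉ T := by
  unfold tstD
  simp only [Bool.and_eq_true, decide_eq_true_eq, Bool.not_eq_true', decide_eq_false_iff_not]

theorem TTD_succ {v e : ℕ} : TTD P v (e + 1) = bif decide (pkD P v e < v) then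
    la (pkD P v e).unpair.1 :: TTD P v e else TTD P v e := rfl

theorem TTD_length {v e : ℕ} : (TTD P v e).length ≤ e := by
  induction e with
  | zero => simp [TTD]
  | succ e ih =>
    rw [TTD_succ]
    cases decide (pkD P v e < v)
    · simp only [cond_false]; omega
    · simp only [cond_true, List.length_cons]; omega

theorem TTD_mono {v e x : ℕ} (h : x ∈ TTD P v e) : x ∈ TTD P v (e + 1) := by
  rw [TTD_succ]
  cases decide (pkD P v e < v)
  · exact h
  · exact List.mem_cons_of_mem _ h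

theorem TTD_mono' {v e e' x : ℕ} (hee : e ≤ e') (h : x ∈ TTD P v e) : x ∈ TTD P v e' := by
  induction hee with
  | refl => exact h
  | step _ ih => exact TTD_mono ih

theorem mem_TTD_succ {v e : ℕ} (h : pkD P v e < v) :
    la (pkD P v e).unpair.1 ∈ TTD P v (e + 1) := by
  rw [TTD_succ, decide_eq_true h]
  simp

theorem pkD_tst {v e : ℕ} (h : pkD P v e < v) :
    tstD P e v (TTD P v e) (pkD P v e) = true := lst_of_lt h

theorem pkD_ne {v e e' : ℕ} (hlt : e < e') (h : pkD P v e < v) (h' : pkD P v e' < v) :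
    la (pkD P v e).unpair.1 ≠ la (pkD P v e').unpair.1 := by
  intro hc
  have h1 := TTD_mono' (show e + 1 ≤ e' from hlt) (mem_TTD_succ h)
  have h2 := (tstD_iff.1 (pkD_tst h')).2.2.2
  rw [hc] at h1
  exact h2 h1

theorem pkD_inj {v e e' : ℕ} (h : pkD P v e < v) (h' : pkD P v e' < v)
    (he : la (pkD P v e).unpair.1 = la (pkD P v e').unpair.1) : e = e' := by
  rcases Nat.lt_trichotomy e e' with h1 | h1 | h1
  · exact absurd he (pkD_ne h1 h h')
  · exact h1
  · exact absurd he.symm (pkD_ne h1 h' h)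

theorem mem_HHD_succ {n : ℕ} {y : ℕ × ℕ} : y ∈ HHD P (n + 1) ↔ y ∈ HHD P n ∨
    ∃ e < n, pkD P n e < n ∧ (mu (pkD P n e).unpair.1, la (pkD P n e).unpair.1) ∉ HHD P n ∧
      y = (n, la (pkD P n e).unpair.1) := by
  rw [HHD, mem_foldl]
  simp only [List.mem_range, Bool.and_eq_true, decide_eq_true_eq, Bool.not_eq_true', and_assoc,
    decide_eq_false_iff_not]

theorem HHD_lt {n v x : ℕ} (h : (v, x) ∈ HHD P n) : v < n := by
  induction n with
  | zero => simp [HHD] at h
  | succ n ih =>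
    rcases mem_HHD_succ.1 h with h1 | ⟨e, _, _, _, h1⟩
    · exact Nat.lt_succ_of_lt (ih h1)
    · rw [(Prod.mk.inj h1).1]; exact Nat.lt_succ_self n

theorem HHD_stable {n m v x : ℕ} (hn : v < n) (hm : n ≤ m) :
    (v, x) ∈ HHD P m ↔ (v, x) ∈ HHD P n := by
  induction hm with
  | refl => rfl
  | @step m hm ih =>
    rw [mem_HHD_succ, ih]
    constructor
    · rintro (h | ⟨e, _, _, _, h1⟩)
      · exact h
      · have := (Prod.mk.inj h1).1
        have h2 : n ≤ m := hm
        omega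
    · exact Or.inl

theorem gD_eq {x v n : ℕ} (h : v < n) : gD P x v = decide ((v, x) ∈ HHD P n) := by
  unfold gD
  rw [decide_eq_decide]
  exact (HHD_stable (Nat.lt_succ_self v) h).symm

/-- The value at stage `v` of the candidate picked by `e` differs from the former value. -/
theorem gD_pick {v e : ℕ} (he : e < v) (h : pkD P v e < v) :
    gD P (la (pkD P v e).unpair.1) v =
      !(gD P (la (pkD P v e).unpair.1) (mu (pkD P v e).unpair.1)) := by
  have ht := tstD_iff.1 (pkD_tst h)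
  rw [gD_eq (v := mu _) ht.2.2.1]
  unfold gD
  by_cases hr : (mu (pkD P v e).unpair.1, la (pkD P v e).unpair.1) ∈ HHD P v
  · rw [decide_eq_true hr, Bool.not_true, decide_eq_false_iff_not, mem_HHD_succ]
    rintro (h1 | ⟨e', he', h2, h3, h4⟩)
    · exact lt_irrefl _ (HHD_lt h1)
    · have h5 := (Prod.mk.inj h4).2
      have h6 := pkD_inj h h2 h5
      subst h6
      exact h3 hr
  · rw [decide_eq_false hr, Bool.not_false, decide_eq_true_iff, mem_HHD_succ]
    exact Or.inr ⟨e, he, h, hr, rfl⟩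

theorem pair_le_of {a b u : ℕ} (ha : a ≤ u) (hb : b ≤ u) : Nat.pair a b ≤ Nat.pair u u := by
  have h1 := (StrictMono.monotone fun x y h => Nat.pair_lt_pair_left b h :
    Monotone fun x => Nat.pair x b) ha
  have h2 := (StrictMono.monotone fun x y h => Nat.pair_lt_pair_right u h :
    Monotone fun x => Nat.pair u x) hb
  exact le_trans h1 h2

theorem TTD_congr {u v : ℕ} (h : ∀ z ≤ Nat.pair u u, ∀ b ≤ u, P z b = P' z b) (hv : v ≤ u) :
    ∀ e ≤ v, TTD P v e = TTD P' v e ∧ (e < v → pkD P v e = pkD P' v e) := by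
  have key : ∀ e < v, TTD P v e = TTD P' v e → pkD P v e = pkD P' v e := by
    intro e he h1
    unfold pkD
    rw [h1]
    refine lst_congr fun c hc => ?_
    unfold tstD
    have h2 : alD P e v c = alD P' e v c := by
      rw [Bool.eq_iff_iff, alD_iff, alD_iff]
      refine forall_congr' fun b => imp_congr_right fun hb => ?_
      rw [h _ (pair_le_of (by omega) (by omega)) b (by omega)]
    rw [h2]
  intro e
  induction e with
  | zero => exact fun _ => ⟨rfl, fun h1 => key 0 h1 rfl⟩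
  | succ e ih =>
    intro he
    obtain ⟨h1, h2⟩ := ih (by omega)
    have h3 : TTD P v (e + 1) = TTD P' v (e + 1) := by
      rw [TTD_succ, TTD_succ, h1, h2 (by omega)]
    exact ⟨h3, fun h4 => key _ h4 h3⟩

theorem HHD_congr {u : ℕ} (h : ∀ z ≤ Nat.pair u u, ∀ b ≤ u, P z b = P' z b) :
    ∀ n ≤ u + 1, HHD P n = HHD P' n := by
  intro n
  induction n with
  | zero => exact fun _ => rfl
  | succ n ih =>
    intro hn
    rw [HHD, HHD, ih (by omega)]
    refine List.foldl_ext _ _ _ fun acc e he => ?_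
    rw [List.mem_range] at he
    rw [((TTD_congr h (by omega) e he.le).2 he)]

theorem gD_congr {u x : ℕ} (h : ∀ z ≤ Nat.pair u u, ∀ b ≤ u, P z b = P' z b) :
    gD P x u = gD P' x u := by
  unfold gD
  rw [HHD_congr h _ le_rfl]

/-- The approximation of the instance `b` of the fact number `z`. -/
def PD (q s z b : ℕ) : Bool := exB (fun c => !(W0 s (ix z b c))) (q + 1)

theorem PD_iff {q s z b : ℕ} : PD q s z b = true ↔ ∃ c ≤ q, W0 s (ix z b c) = false := by
  unfold PD
  simp only [exB_iff, Nat.lt_succ_iff, Bool.not_eq_true']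

open Classical in
/-- The instance `b` of the fact number `z`. -/
noncomputable def PL (z b : ℕ) : Bool := decide (∃ c, ∀ s, W0 s (ix z b c) = false)

theorem PL_iff {z b : ℕ} : PL z b = true ↔ ∃ c, ∀ s, W0 s (ix z b c) = false := by
  unfold PL
  simp only [decide_eq_true_eq]

/-- The approximations of the colouring of pairs. -/
def HD (z s : ℕ) : ℕ :=
  bif gD (PD z.unpair.2.unpair.2 s) z.unpair.1 z.unpair.2.unpair.1 then 1 else 0

/-- The colouring of pairs. -/
noncomputable def gL (x u : ℕ) : ℕ := bif gD PL x u then 1 else 0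

theorem HD_lt (z s : ℕ) : HD z s < 2 := by
  unfold HD
  cases gD (PD z.unpair.2.unpair.2 s) z.unpair.1 z.unpair.2.unpair.1 <;> decide

theorem ix_le {z b c M u q : ℕ} (hz : z ≤ M) (hb : b ≤ u) (hc : c ≤ q) :
    ix z b c ≤ Nat.pair (M + Nat.pair (u + q) (u + q) + Nat.pair (M + Nat.pair (u + q) (u + q))
      (M + Nat.pair (u + q) (u + q))) (M + Nat.pair (u + q) (u + q) +
        Nat.pair (M + Nat.pair (u + q) (u + q)) (M + Nat.pair (u + q) (u + q))) := by
  unfold ix
  have h1 := Nat.unpair_left_le z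
  have h2 := Nat.unpair_right_le z
  have h3 : Nat.pair b c ≤ Nat.pair (u + q) (u + q) := pair_le_of (by omega) (by omega)
  have h4 : Nat.pair z.unpair.2 (Nat.pair b c) ≤ Nat.pair (M + Nat.pair (u + q) (u + q))
      (M + Nat.pair (u + q) (u + q)) := pair_le_of (by omega) (by omega)
  exact pair_le_of (by omega) (by omega)

/-- The stages settle. -/
theorem W0_settle (B : ℕ) : ∃ S, ∀ w ≤ B, ∀ s, S ≤ s → (W0 s w = true ↔ ∃ t, W0 t w = true) := by
  classical
  have h1 : ∀ w, ∃ S, ∀ s, S ≤ s → (W0 s w = true ↔ ∃ t, W0 t w = true) := by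
    intro w
    by_cases h : ∃ t, W0 t w = true
    · obtain ⟨t, ht⟩ := h
      exact ⟨t, fun s hs => ⟨fun _ => ⟨t, ht⟩, fun _ => mon_W0 _ _ _ hs ht⟩⟩
    · exact ⟨0, fun s _ => ⟨fun h2 => absurd ⟨s, h2⟩ h, fun h2 => absurd h2 h⟩⟩
  choose f hf using h1
  refine ⟨(range (B + 1)).sup f, fun w hw s hs => hf w s ?_⟩
  have : f w ≤ (range (B + 1)).sup f := le_sup (f := f) (mem_range.2 (by omega))
  omega

theorem PD_settle (M u q : ℕ) : ∃ S, ∀ s, S ≤ s → ∀ z ≤ M, ∀ b ≤ u,
    (PD q s z b = true ↔ ∃ c ≤ q, ∀ t, W0 t (ix z b c) = false) := by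
  obtain ⟨S, hS⟩ := W0_settle (Nat.pair (M + Nat.pair (u + q) (u + q) +
    Nat.pair (M + Nat.pair (u + q) (u + q)) (M + Nat.pair (u + q) (u + q)))
    (M + Nat.pair (u + q) (u + q) +
        Nat.pair (M + Nat.pair (u + q) (u + q)) (M + Nat.pair (u + q) (u + q))))
  refine ⟨S, fun s hs z hz b hb => ?_⟩
  rw [PD_iff]
  refine exists_congr fun c => and_congr_right fun hc => ?_
  have h1 := hS _ (ix_le hz hb hc) s hs
  constructor
  · intro h t
    rw [Bool.eq_false_iff]
    intro h2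
    rw [h1.2 ⟨t, h2⟩] at h
    cases h
  · exact fun h => h s

theorem HD_cv : Cv HD := by
  intro z
  obtain ⟨S, hS⟩ := PD_settle (Nat.pair z.unpair.2.unpair.1 z.unpair.2.unpair.1)
    z.unpair.2.unpair.1 z.unpair.2.unpair.2
  refine ⟨S, fun s hs => ?_⟩
  unfold HD
  rw [gD_congr (P := PD z.unpair.2.unpair.2 s) (P' := PD z.unpair.2.unpair.2 S)]
  intro z' hz' b hb
  rw [Bool.eq_iff_iff, hS s hs z' hz' b hb, hS S le_rfl z' hz' b hb]

theorem HD_lim (x u : ℕ) :
    ∃ q₀, ∀ q, q₀ ≤ q → ∃ s₀, ∀ s, s₀ ≤ s → HD (tr x u q) s = gL x u := by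
  classical
  have h1 : ∀ z b, ∃ c, (∃ c, ∀ t, W0 t (ix z b c) = false) → ∀ t, W0 t (ix z b c) = false := by
    intro z b
    by_cases h : ∃ c, ∀ t, W0 t (ix z b c) = false
    · obtain ⟨c, hc⟩ := h
      exact ⟨c, fun _ => hc⟩
    · exact ⟨0, fun h2 => absurd h2 h⟩
  choose f hf using h1
  refine ⟨(range (Nat.pair u u + 1)).sup fun z => (range (u + 1)).sup (f z), fun q hq => ?_⟩
  obtain ⟨S, hS⟩ := PD_settle (Nat.pair u u) u q
  refine ⟨S, fun s hs => ?_⟩
  unfold HD gL tr
  simp only [Nat.unpair_pair]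
  rw [gD_congr (P := PD q s) (P' := PL)]
  intro z hz b hb
  rw [Bool.eq_iff_iff, hS s hs z hz b hb, PL_iff]
  constructor
  · rintro ⟨c, _, hc⟩
    exact ⟨c, hc⟩
  · intro h
    refine ⟨f z b, ?_, hf z b h⟩
    have h2 : (range (u + 1)).sup (f z) ≤
        (range (Nat.pair u u + 1)).sup fun z => (range (u + 1)).sup (f z) :=
      le_sup (f := fun z => (range (u + 1)).sup (f z)) (mem_range.2 (by omega))
    have h3 : f z b ≤ (range (u + 1)).sup (f z) := le_sup (f := f z) (mem_range.2 (by omega))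
    omega

section comp

variable {α : Type*} [Primcodable α] {Q : α → ℕ → ℕ → Bool}

theorem c_tstD (hP : Computable fun x : α × ℕ × ℕ => Q x.1 x.2.1 x.2.2) {e v : α → ℕ}
    {T : α → List ℕ} {c : α → ℕ} (he : Computable e) (hv : Computable v) (hT : Computable T)
    (hc : Computable c) : Computable fun a => tstD (Q a) (e a) (v a) (T a) (c a) := by
  have h1 : Computable fun a => alD (Q a) (e a) (v a) (c a) := by
    unfold alD
    refine computable_allB (q := fun (a : α) b => Q a (Nat.pair (e a) (c a)) b)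
      (f := fun a => v a + 1) ?_ (by fun_prop)
    unfold Computable₂
    exact hP.comp (g := fun x : α × ℕ => (x.1, Nat.pair (e x.1) (c x.1), x.2)) (by fun_prop)
  unfold tstD
  exact cand h1 (cand (c_dlt (by fun_prop) (by fun_prop)) (cand (c_dlt (by fun_prop)
    (by fun_prop)) (cnot (c_mem (by fun_prop) hT))))

theorem c_TTD (hP : Computable fun x : α × ℕ × ℕ => Q x.1 x.2.1 x.2.2) {v e : α → ℕ}
    (hv : Computable v) (he : Computable e) : Computable fun a => TTD (Q a) (v a) (e a) := by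
  have h1 : Computable fun x : α × (ℕ × List ℕ) =>
      lst (tstD (Q x.1) x.2.1 (v x.1) x.2.2) (v x.1) := by
    refine c_lst (q := fun (x : α × (ℕ × List ℕ)) c => tstD (Q x.1) x.2.1 (v x.1) x.2.2 c) ?_
      (by fun_prop)
    refine c_tstD (Q := fun x : (α × (ℕ × List ℕ)) × ℕ => Q x.1.1) ?_ (by fun_prop)
      (by fun_prop) (by fun_prop) (by fun_prop)
    exact hP.comp (g := fun x : ((α × (ℕ × List ℕ)) × ℕ) × ℕ × ℕ => (x.1.1.1, x.2.1, x.2.2))
      (by fun_prop)
  have h := Computable.nat_rec (f := e) (g := fun _ : α => ([] : List ℕ))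
    (h := fun (a : α) (y : ℕ × List ℕ) =>
      bif decide (lst (tstD (Q a) y.1 (v a) y.2) (v a) < v a) then
      la (lst (tstD (Q a) y.1 (v a) y.2) (v a)).unpair.1 :: y.2 else y.2) he
    (Computable.const _)
    (show Computable fun x : α × (ℕ × List ℕ) =>
      bif decide (lst (tstD (Q x.1) x.2.1 (v x.1) x.2.2) (v x.1) < v x.1) then
      la (lst (tstD (Q x.1) x.2.1 (v x.1) x.2.2) (v x.1)).unpair.1 :: x.2.2 else x.2.2 from
      ccond (c_dlt h1 (by fun_prop)) (by fun_prop) (by fun_prop))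
  refine h.of_eq fun a => ?_
  generalize e a = n
  induction n with
  | zero => rfl
  | succ n ih => simp only [TTD]; rw [← ih]

theorem c_pkD (hP : Computable fun x : α × ℕ × ℕ => Q x.1 x.2.1 x.2.2) {v e : α → ℕ}
    (hv : Computable v) (he : Computable e) : Computable fun a => pkD (Q a) (v a) (e a) := by
  unfold pkD
  refine c_lst (q := fun (a : α) c => tstD (Q a) (e a) (v a) (TTD (Q a) (v a) (e a)) c) ?_
    (by fun_prop)
  refine c_tstD (Q := fun x : α × ℕ => Q x.1) ?_ (by fun_prop) (by fun_prop) ?_ (by fun_prop)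
  · exact hP.comp (g := fun x : (α × ℕ) × ℕ × ℕ => (x.1.1, x.2.1, x.2.2)) (by fun_prop)
  · exact (c_TTD hP hv he).comp Computable.fst

theorem c_HHD (hP : Computable fun x : α × ℕ × ℕ => Q x.1 x.2.1 x.2.2) {n : α → ℕ}
    (hn : Computable n) : Computable fun a => HHD (Q a) (n a) := by
  have h := Computable.nat_rec (f := n) (g := fun _ : α => ([] : List (ℕ × ℕ)))
    (h := fun (a : α) (y : ℕ × List (ℕ × ℕ)) =>
      (List.range y.1).foldl (fun acc e =>
      bif decide (pkD (Q a) y.1 e < y.1) &&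
        !(decide ((mu (pkD (Q a) y.1 e).unpair.1, la (pkD (Q a) y.1 e).unpair.1) ∈ y.2))
      then (y.1, la (pkD (Q a) y.1 e).unpair.1) :: acc else acc) y.2)
    hn (Computable.const []) ?_
  · refine h.of_eq fun a => ?_
    generalize n a = m
    induction m with
    | zero => rfl
    | succ m ih => simp only [HHD]; rw [← ih]
  · unfold Computable₂
    refine RE.list_foldl (f := fun x : α × (ℕ × List (ℕ × ℕ)) => List.range x.2.1)
      (g := fun x : α × (ℕ × List (ℕ × ℕ)) => x.2.2)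
      (h := fun (x : α × (ℕ × List (ℕ × ℕ))) (p : List (ℕ × ℕ) × ℕ) =>
      bif decide (pkD (Q x.1) x.2.1 p.2 < x.2.1) &&
        !(decide ((mu (pkD (Q x.1) x.2.1 p.2).unpair.1, la (pkD (Q x.1) x.2.1 p.2).unpair.1) ∈
          x.2.2))
      then (x.2.1, la (pkD (Q x.1) x.2.1 p.2).unpair.1) :: p.1 else p.1)
      (Primrec.list_range.to_comp.comp (by fun_prop)) (by fun_prop) ?_
    unfold Computable₂
    have hpk : Computable fun x : (α × (ℕ × List (ℕ × ℕ))) × (List (ℕ × ℕ) × ℕ) =>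
        pkD (Q x.1.1) x.1.2.1 x.2.2 := by
      refine c_pkD (Q := fun x : (α × (ℕ × List (ℕ × ℕ))) × (List (ℕ × ℕ) × ℕ) => Q x.1.1) ?_
        (by fun_prop) (by fun_prop)
      exact hP.comp (g := fun x : ((α × (ℕ × List (ℕ × ℕ))) × (List (ℕ × ℕ) × ℕ)) × ℕ × ℕ =>
        (x.1.1.1, x.2.1, x.2.2)) (by fun_prop)
    exact ccond (cand (c_dlt hpk (by fun_prop)) (cnot (c_mem (by fun_prop) (by fun_prop))))
      (ccons (by fun_prop) (by fun_prop)) (by fun_prop)

theorem c_PD : Computable fun x : (ℕ × ℕ) × ℕ × ℕ => PD x.1.1 x.1.2 x.2.1 x.2.2 := by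
  unfold PD
  refine computable_exB (q := fun (x : (ℕ × ℕ) × ℕ × ℕ) c => !(W0 x.1.2 (ix x.2.1 x.2.2 c)))
    ?_ (by fun_prop)
  unfold Computable₂ ix
  exact cnot (c_W0.comp (g := fun x : ((ℕ × ℕ) × ℕ × ℕ) × ℕ => (x.1.1.2,
    Nat.pair x.1.2.1.unpair.1 (Nat.pair x.1.2.1.unpair.2 (Nat.pair x.1.2.2 x.2))))
    (by fun_prop))

theorem c_HD : Computable fun p : ℕ × ℕ => HD p.1 p.2 := by
  unfold HD gD
  have h1 : Computable fun p : ℕ × ℕ =>
      HHD (PD p.1.unpair.2.unpair.2 p.2) (p.1.unpair.2.unpair.1 + 1) := by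
    refine c_HHD (Q := fun p : ℕ × ℕ => PD p.1.unpair.2.unpair.2 p.2) ?_ (by fun_prop)
    exact c_PD.comp (g := fun x : (ℕ × ℕ) × ℕ × ℕ =>
      ((x.1.1.unpair.2.unpair.2, x.1.2), x.2.1, x.2.2)) (by fun_prop)
  exact ccond (c_mem (by fun_prop) h1) (by fun_prop) (by fun_prop)

end comp

theorem Psi_iff_PL {z : ℕ} : Psi W0 z ↔ ∀ b, PL z b = true := by
  unfold Psi
  simp only [PL_iff]

theorem exists_deadD (e N : ℕ) : ∃ v0, ∀ c ≤ N, ∀ v, v0 ≤ v → alD PL e v c = true →
    Psi W0 (Nat.pair e c) := by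
  classical
  have key : ∀ c, ∃ v0, ∀ v, v0 ≤ v → alD PL e v c = true → Psi W0 (Nat.pair e c) := by
    intro c
    by_cases ht : Psi W0 (Nat.pair e c)
    · exact ⟨0, fun _ _ _ => ht⟩
    · rw [Psi_iff_PL] at ht
      push Not at ht
      obtain ⟨b, hb⟩ := ht
      exact ⟨b, fun v hv hal => absurd (alD_iff.1 hal b hv) hb⟩
  choose f hf using key
  refine ⟨(range (N + 1)).sup f, fun c hc v hv => hf c v ?_⟩
  have : f c ≤ (range (N + 1)).sup f := le_sup (f := f) (mem_range.2 (by omega))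
  omega

variable {X : Set ℕ}

/-- A chain of length `e + 1` inside the projection number `e` of the `Π⁰₃` facts contradicts the
colouring, if this projection is contained in the solution. -/
theorem no_chainD (h : Sol HD 2 X) (e : ℕ)
    (hsub : ∀ x, (∃ a, Psi W0 (Nat.pair e (Nat.pair x a))) → x ∈ X) (f : ℕ → ℕ)
    (hf : ∀ i ≤ e, ∃ a, Psi W0 (Nat.pair e (Nat.pair (f i) a)))
    (hs : ∀ i < e, Pool.Agent.H645R2.HT.Sep (f i) (f (i + 1))) : False := by
  have hfX : ∀ i ≤ e, f i ∈ X := fun i hi => hsub _ (hf i hi)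
  have hlt : ∀ j, ∀ i, i < j → j ≤ e → la (f i) < la (f j) := by
    intro j
    induction j with
    | zero => intro i hi; omega
    | succ j ih =>
      intro i hi hj
      have h1 := sep_lt (h.ps _ (hfX j (by omega))) (hs j (by omega))
      rcases Nat.lt_succ_iff_lt_or_eq.1 hi with h2 | h2
      · have := ih i h2 (by omega)
        omega
      · rw [h2]; exact h1
  have hinj : ∀ i ≤ e, ∀ j ≤ e, la (f i) = la (f j) → i = j := by
    intro i hi j hj hij
    rcases Nat.lt_trichotomy i j with h1 | h1 | h1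
    · have := hlt j i h1 hj; omega
    · exact h1
    · have := hlt i j h1 hi; omega
  choose! w hw using hf
  obtain ⟨N, hN⟩ : ∃ N, ∀ i ≤ e, Nat.pair (f i) (w i) ≤ N := by
    refine ⟨(range (e + 1)).sup (fun i => Nat.pair (f i) (w i)), fun i hi => ?_⟩
    exact le_sup (f := fun i => Nat.pair (f i) (w i)) (mem_range.2 (Nat.lt_succ_of_le hi))
  obtain ⟨v0, hv0⟩ := exists_deadD e N
  obtain ⟨l, hl, hll⟩ := h.far (max (max v0 N) e)
  have hlm := la_le_mu (h.ps l hl)
  -- some candidate of the chain is available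
  obtain ⟨i, hi, hit⟩ : ∃ i ≤ e, la (f i) ∉ TTD PL (mu l) e := by
    by_contra hc
    push Not at hc
    have h1 : (range (e + 1)).image (fun i => la (f i)) ⊆ (TTD PL (mu l) e).toFinset := by
      intro y hy
      obtain ⟨i, hi, rfl⟩ := mem_image.1 hy
      rw [List.mem_toFinset]
      exact hc i (by have := mem_range.1 hi; omega)
    have h2 := card_le_card h1
    rw [card_image_of_injOn, card_range] at h2
    · have h3 := List.toFinset_card_le (TTD PL (mu l) e)
      have h4 := TTD_length (P := PL) (v := mu l) (e := e)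
      omega
    · intro a ha b hb hab
      have ha' := mem_range.1 (mem_coe.1 ha)
      have hb' := mem_range.1 (mem_coe.1 hb)
      exact hinj a (by omega) b (by omega) hab
  have hmu : ∀ x, 0 < x → mu x < x := fun x hx => dg_lt (mem_L.1 (mu_mem hx))
  have hfi : f i ≤ N := le_trans (Nat.left_le_pair _ _) (hN i hi)
  have htst : tstD PL e (mu l) (TTD PL (mu l) e) (Nat.pair (f i) (w i)) = true := by
    rw [tstD_iff]
    simp only [Nat.unpair_pair]
    refine ⟨alD_iff.2 fun b _ => Psi_iff_PL.1 (hw i hi) b, h.ps _ (hfX i hi), ?_, hit⟩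
    have := hmu _ (h.ps _ (hfX i hi))
    omega
  obtain ⟨h1, h2, -⟩ := lst_lt_of (q := tstD PL e (mu l) (TTD PL (mu l) e))
    (n := mu l) (i := Nat.pair (f i) (w i)) (by have := hN i hi; omega) htst
  change pkD PL (mu l) e ≤ Nat.pair (f i) (w i) at h1
  change pkD PL (mu l) e < mu l at h2
  have ht := tstD_iff.1 (pkD_tst h2)
  have hcN : pkD PL (mu l) e ≤ N := le_trans h1 (hN i hi)
  have hpsi := hv0 _ hcN (mu l) (by omega) ht.1
  have hgp := gD_pick (P := PL) (v := mu l) (e := e) (by omega) h2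
  generalize pkD PL (mu l) e = c at *
  have hcX : c.unpair.1 ∈ X := hsub _ ⟨c.unpair.2, by rwa [Nat.pair_unpair]⟩
  have hcs : Pool.Agent.H645R2.HT.Sep c.unpair.1 l := by
    unfold Pool.Agent.H645R2.HT.Sep
    have h5 := hmu _ (h.ps _ hcX)
    have h6 := Nat.unpair_left_le c
    omega
  have key := limit_eq HD_lt HD_cv h.ps h.far h.ch h.eE HD_lim hcX hl hcs
  unfold gL at key
  rw [hgp] at key
  revert key
  generalize gD PL (la c.unpair.1) (mu c.unpair.1) = b
  cases b <;> decide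

open Pool.Agent.H19R3.DNC (idx c_idx idx_iff dl el c_dl c_el Good exists_good re_good
  re_not_good)
open Pool.Agent.TH747.HS (Sig4)

/-- Solutions compute, for every `Σ⁰₄` relation, a function avoiding all single-valued
sections. -/
theorem Sol.dnc (h : Sol HD 2 X) {R : ℕ → ℕ → ℕ → ℕ → ℕ → ℕ → Bool}
    (hR : Computable fun x : ℕ × ℕ × ℕ × ℕ × ℕ × ℕ =>
      R x.1 x.2.1 x.2.2.1 x.2.2.2.1 x.2.2.2.2.1 x.2.2.2.2.2) :
    ∃ f : ℕ → ℕ, REIn X (fun x : ℕ × ℕ => f x.1 = x.2) ∧
      ∀ q, ¬ ∀ m, Sig4 R q m ↔ m = f q := by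
  classical
  obtain ⟨e, he⟩ := Pool.Agent.TH747.HS.exists_index hR
  have hex : ∀ q, ∃ m, Good X (idx e q) m := fun q => exists_good h.far _
  refine ⟨fun q => Nat.find (hex q), ?_, ?_⟩
  · have h1 : REIn X fun x : ℕ × ℕ => Good X (idx e x.1) x.2 ∧
        ∀ i < x.2, ¬ Good X (idx e x.1) i := by
      refine REIn.and (re_good (c_idx e (by fun_prop)) (by fun_prop)) ?_
      refine REIn.all_lt (S := fun (x : ℕ × ℕ) i => ¬ Good X (idx e x.1) i) ?_ (by fun_prop)
      exact re_not_good (N := fun x : (ℕ × ℕ) × ℕ => idx e x.1.1)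
        (m := fun x : (ℕ × ℕ) × ℕ => x.2) (c_idx e (by fun_prop)) (by fun_prop)
    refine h1.of_eq fun x => ?_
    constructor
    · rintro ⟨h2, h3⟩
      exact (Nat.find_eq_iff _).2 ⟨h2, h3⟩
    · intro h2
      exact (Nat.find_eq_iff _).1 h2
  · intro q hq
    obtain ⟨h1, h2, h3⟩ := Nat.find_spec (hex q)
    dsimp only at hq
    generalize Nat.find (hex q) = m at *
    have hmem : ∀ n, (∃ a, Psi W0 (Nat.pair (idx e q) (Nat.pair n a))) ↔ n ∈ dl m := by
      intro n
      rw [he q n]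
      constructor
      · rintro ⟨m', hm', hn⟩
        rw [(hq m').1 hm'] at hn
        exact hn
      · intro hn
        exact ⟨m, (hq m).2 rfl, hn⟩
    have hel : ∀ i < idx e q + 2, el m i ∈ dl m := by
      intro i hi
      unfold el
      rw [List.getElem?_eq_getElem (by omega)]
      exact List.getElem_mem _
    refine no_chainD h (idx e q) ?_ (el m) ?_ ?_
    · intro n hn
      obtain ⟨i, hi, rfl⟩ := List.getElem_of_mem ((hmem n).1 hn)
      have h4 := h2 i (by omega)
      unfold el at h4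
      rwa [List.getElem?_eq_getElem hi] at h4
    · intro i hi
      exact (hmem _).2 (hel i (by omega))
    · intro i hi
      exact h3 i (by omega)

/-- Solutions are not `Σ⁰₄`. -/
theorem Sol.no_sigma4 (h : Sol HD 2 X) {R : ℕ → ℕ → ℕ → ℕ → ℕ → Bool}
    (hR : Computable fun x : ℕ × ℕ × ℕ × ℕ × ℕ =>
      R x.1 x.2.1 x.2.2.1 x.2.2.2.1 x.2.2.2.2) :
    X ≠ {n | ∃ a, ∀ b, ∃ t, ∀ u, R n a b t u = true} := by
  intro hXR
  have h1 : REPred fun w : ℕ => ∃ u, R w.unpair.1.unpair.1 w.unpair.1.unpair.2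
      w.unpair.2.unpair.1 w.unpair.2.unpair.2 u = false := by
    refine RE.exN (p := fun (w : ℕ) u => R w.unpair.1.unpair.1 w.unpair.1.unpair.2
      w.unpair.2.unpair.1 w.unpair.2.unpair.2 u = false) ?_
    refine RE.eq ?_ (by fun_prop)
    exact hR.comp (g := fun x : ℕ × ℕ => (x.1.unpair.1.unpair.1,
      x.1.unpair.1.unpair.2, x.1.unpair.2.unpair.1, x.1.unpair.2.unpair.2, x.2)) (by fun_prop)
  obtain ⟨e, he⟩ := univ_W0 h1
  have key : ∀ n, n ∈ X ↔ ∃ a, Psi W0 (Nat.pair e (Nat.pair n a)) := by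
    intro n
    have h2 : n ∈ X ↔ ∃ a, ∀ b, ∃ t, ∀ u, R n a b t u = true := by rw [hXR]; rfl
    rw [h2]
    refine exists_congr fun a => ?_
    rw [Pool.Agent.TH747.HS.Psi_W0]
    refine forall_congr' fun b => exists_congr fun c => ?_
    unfold ix
    simp only [Nat.unpair_pair]
    rw [← he]
    simp only [Nat.unpair_pair]
    push Not
    refine forall_congr' fun u => ?_
    simp
  obtain ⟨f, hf1, hf2⟩ := exists_chain h.far
  exact no_chainD h e (fun x hx => (key x).2 hx) f (fun i _ => (key _).1 (hf1 i))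
    (fun i _ => hf2 i)

end Pool.Agent.N579.HI
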