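import Mathlib

/-!
Gaps of a finite set of positions, the gaps which still look true, and a weighted sum of labels
of gaps which changes in a controlled way when a far set of positions is appended.
-/

namespace Pool.Agent.N579.HI

open Finset

/-- A bound for the codes of all triples of numbers `≤ p`. -/
def FF (p : ℕ) : ℕ := Nat.pair p (Nat.pair p p)

theorem pair_le {a b c d : ℕ} (h : a ≤ c) (h' : b ≤ d) : Nat.pair a b ≤ Nat.pair c d := by
  rcases h.lt_or_eq with h1 | rfl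
  · rcases h'.lt_or_eq with h2 | rfl
    · exact ((Nat.pair_lt_pair_left _ h1).trans (Nat.pair_lt_pair_right _ h2)).le
    · exact (Nat.pair_lt_pair_left _ h1).le
  · rcases h'.lt_or_eq with h2 | rfl
    · exact (Nat.pair_lt_pair_right _ h2).le
    · exact le_rfl

theorem FF_mono {p q : ℕ} (h : p ≤ q) : FF p ≤ FF q := pair_le h (pair_le h h)

/-- The code of a triple. -/
def tr (x p q : ℕ) : ℕ := Nat.pair x (Nat.pair p q)

theorem tr_le {x p q r : ℕ} (h1 : x ≤ r) (h2 : p ≤ r) (h3 : q ≤ r) : tr x p q ≤ FF r :=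
  pair_le h1 (pair_le h2 h3)

/-- The gap `(p, q)` looks true up to `r`: all facts with code `≤ FF p` are constant on
`[q, r]`. -/
def St (H : ℕ → ℕ → ℕ) (p q r : ℕ) : Prop := ∀ z ≤ FF p, ∀ c, q ≤ c → c ≤ r → H z c = H z q

noncomputable instance (H : ℕ → ℕ → ℕ) (p q r : ℕ) : Decidable (St H p q r) := Classical.dec _

variable {H : ℕ → ℕ → ℕ}

theorem St.mono {p q r r' : ℕ} (h : St H p q r) (hr : r' ≤ r) : St H p q r' :=
  fun z hz c h1 h2 => h z hz c h1 (h2.trans hr)

/-- The gaps of a finite set: pairs of consecutive elements. -/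
def gaps (D : Finset ℕ) : Finset (ℕ × ℕ) :=
  (D ×ˢ D).filter fun γ => γ.1 < γ.2 ∧ ∀ c ∈ D, ¬ (γ.1 < c ∧ c < γ.2)

theorem mem_gaps {D : Finset ℕ} {γ : ℕ × ℕ} : γ ∈ gaps D ↔
    γ.1 ∈ D ∧ γ.2 ∈ D ∧ γ.1 < γ.2 ∧ ∀ c ∈ D, ¬ (γ.1 < c ∧ c < γ.2) := by
  simp [gaps, and_assoc]

/-- Two gaps are equal or one is before the other. -/
theorem gaps_cmp {D : Finset ℕ} {γ δ : ℕ × ℕ} (h1 : γ ∈ gaps D) (h2 : δ ∈ gaps D) :
    γ = δ ∨ γ.2 ≤ δ.1 ∨ δ.2 ≤ γ.1 := by
  obtain ⟨a1, a2, a3, a4⟩ := mem_gaps.1 h1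
  obtain ⟨b1, b2, b3, b4⟩ := mem_gaps.1 h2
  have c1 := a4 _ b1
  have c2 := a4 _ b2
  have c3 := b4 _ a1
  have c4 := b4 _ a2
  rcases Nat.lt_trichotomy γ.1 δ.1 with h | h | h
  · right; left; omega
  · left
    have : γ.2 = δ.2 := by omega
    exact Prod.ext h this
  · right; right; omega

/-- The number of earlier gaps which look true at `γ`. -/
noncomputable def dep (H : ℕ → ℕ → ℕ) (D : Finset ℕ) (γ : ℕ × ℕ) : ℕ :=
  ((gaps D).filter fun j => j.2 ≤ γ.1 ∧ St H j.1 j.2 γ.2).card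

/-- The last position up to which `γ` looks true. -/
noncomputable def en (H : ℕ → ℕ → ℕ) (D : Finset ℕ) (γ : ℕ × ℕ) : ℕ :=
  (D.filter fun r => γ.2 ≤ r ∧ St H γ.1 γ.2 r).sup id

/-- The weighted sum of the labels. -/
noncomputable def EF (H : ℕ → ℕ → ℕ) (R : Type) [CommRing R] (μ : R) (x : ℕ) (D : Finset ℕ) : R :=
  ∑ γ ∈ gaps D, μ ^ (1 + dep H D γ) * (H (tr x γ.1 γ.2) (en H D γ) : R)

section

variable {W V : Finset ℕ} {m q t : ℕ}

/-- `m` is the maximum of `W`, `q` the minimum and `t` the maximum of `V`, and `m < q`. -/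
structure Jn (W V : Finset ℕ) (m q t : ℕ) : Prop where
  mW : m ∈ W
  leW : ∀ a ∈ W, a ≤ m
  qV : q ∈ V
  leV : ∀ b ∈ V, q ≤ b
  tV : t ∈ V
  geV : ∀ b ∈ V, b ≤ t
  lt : m < q

theorem gaps_union (J : Jn W V m q t) : gaps (W ∪ V) = (gaps W ∪ {(m, q)}) ∪ gaps V := by
  obtain ⟨h1, h2, h3, h4, h5, h6, h7⟩ := J
  ext γ
  simp only [mem_union, mem_singleton, mem_gaps]
  constructor
  · rintro ⟨a1, a2, a3, a4⟩
    have a5 : ∀ c ∈ W, ¬ (γ.1 < c ∧ c < γ.2) := fun c hc => a4 c (Or.inl hc)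
    have a6 : ∀ c ∈ V, ¬ (γ.1 < c ∧ c < γ.2) := fun c hc => a4 c (Or.inr hc)
    rcases a1 with a1 | a1
    · rcases a2 with a2 | a2
      · exact Or.inl (Or.inl ⟨a1, a2, a3, a5⟩)
      · left; right
        have e1 := a5 _ h1
        have e2 := a6 _ h3
        have e3 := h2 _ a1
        have e4 := h4 _ a2
        exact Prod.ext (by dsimp only; omega) (by dsimp only; omega)
    · rcases a2 with a2 | a2
      · have := h2 _ a2; have := h4 _ a1; omega
      · exact Or.inr ⟨a1, a2, a3, a6⟩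
  · rintro ((⟨a1, a2, a3, a4⟩ | rfl) | ⟨a1, a2, a3, a4⟩)
    · refine ⟨Or.inl a1, Or.inl a2, a3, ?_⟩
      rintro c (hc | hc)
      · exact a4 c hc
      · have := h4 _ hc; have := h2 _ a2; omega
    · refine ⟨Or.inl h1, Or.inr h3, h7, ?_⟩
      rintro c (hc | hc)
      · have := h2 _ hc; dsimp only; omega
      · have := h4 _ hc; dsimp only; omega
    · refine ⟨Or.inr a1, Or.inr a2, a3, ?_⟩
      rintro c (hc | hc)
      · have := h2 _ hc; have := h4 _ a1; omega
      · exact a4 c hc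

/-- The far condition. -/
def Fa (H : ℕ → ℕ → ℕ) (m q : ℕ) : Prop := ∀ z ≤ FF m, ∀ c, q ≤ c → H z c = H z q

theorem St_far (hf : Fa H m q) {a b r : ℕ} (ha : a ≤ m) (hb : b ≤ q) (hr : q ≤ r) :
    St H a b r ↔ St H a b q := by
  refine ⟨fun h => h.mono hr, fun h z hz c h1 h2 => ?_⟩
  rcases le_total c q with h3 | h3
  · exact h z hz c h1 h3
  · rw [hf z (hz.trans (FF_mono ha)) c h3]
    exact h z hz q hb le_rfl

theorem St_junction (hf : Fa H m q) {r : ℕ} : St H m q r :=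
  fun z hz c h1 _ => hf z hz c h1

variable (J : Jn W V m q t) (hf : Fa H m q)

include J

theorem gap_W {γ : ℕ × ℕ} (h : γ ∈ gaps W) : γ.1 < γ.2 ∧ γ.2 ≤ m := by
  obtain ⟨_, a2, a3, _⟩ := mem_gaps.1 h
  exact ⟨a3, J.leW _ a2⟩

theorem gap_V {γ : ℕ × ℕ} (h : γ ∈ gaps V) : q ≤ γ.1 ∧ γ.1 < γ.2 := by
  obtain ⟨a1, _, a3, _⟩ := mem_gaps.1 h
  exact ⟨J.leV _ a1, a3⟩

theorem disj1 : Disjoint (gaps W) {(m, q)} := by
  rw [disjoint_singleton_right]
  intro h
  have := gap_W J h
  have := J.lt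
  dsimp only at *
  omega

theorem disj2 : Disjoint (gaps W ∪ {(m, q)}) (gaps V) := by
  rw [disjoint_left]
  intro γ h1 h2
  have h3 := gap_V J h2
  have h4 := J.lt
  rw [mem_union, mem_singleton] at h1
  rcases h1 with h1 | h1
  · have := gap_W J h1; omega
  · rw [h1] at h3; dsimp only at *; omega

theorem dep_W {γ : ℕ × ℕ} (h : γ ∈ gaps W) : dep H (W ∪ V) γ = dep H W γ := by
  unfold dep
  congr 1
  rw [gaps_union J]
  ext j
  simp only [mem_filter, mem_union, mem_singleton]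
  have h1 := gap_W J h
  have h2 := J.lt
  constructor
  · rintro ⟨(h3 | rfl) | h3, h4, h5⟩
    · exact ⟨h3, h4, h5⟩
    · dsimp only at *; omega
    · have := gap_V J h3; omega
  · rintro ⟨h3, h4⟩
    exact ⟨Or.inl (Or.inl h3), h4⟩

theorem dep_J : dep H (W ∪ V) (m, q) = ((gaps W).filter fun j => St H j.1 j.2 q).card := by
  unfold dep
  congr 1
  rw [gaps_union J]
  ext j
  simp only [mem_filter, mem_union, mem_singleton]
  have h2 := J.lt
  constructor
  · rintro ⟨(h3 | rfl) | h3, h4, h5⟩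
    · exact ⟨h3, h5⟩
    · change q ≤ m at h4
      omega
    · have h6 := gap_V J h3
      change j.2 ≤ m at h4
      omega
  · rintro ⟨h3, h4⟩
    exact ⟨Or.inl (Or.inl h3), (gap_W J h3).2, h4⟩

include hf

theorem dep_V {γ : ℕ × ℕ} (h : γ ∈ gaps V) : dep H (W ∪ V) γ =
    ((gaps W).filter fun j => St H j.1 j.2 q).card + 1 + dep H V γ := by
  unfold dep
  have h1 := gap_V J h
  have h2 := J.lt
  rw [gaps_union J, filter_union, filter_union, card_union_of_disjoint, card_union_of_disjoint]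
  · congr 2
    · congr 1
      refine filter_congr fun j hj => ?_
      have h3 := gap_W J hj
      rw [St_far hf (by omega) (by omega) (by omega : q ≤ γ.2)]
      exact ⟨fun h => h.2, fun h => ⟨by omega, h⟩⟩
    · have e : ({(m, q)} : Finset (ℕ × ℕ)).filter (fun j => j.2 ≤ γ.1 ∧ St H j.1 j.2 γ.2) =
          {(m, q)} := by
        rw [filter_eq_self]
        intro j hj
        rw [mem_singleton] at hj
        subst hj
        exact ⟨h1.1, St_junction hf⟩
      rw [e, card_singleton]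
  · exact disjoint_filter_filter (disj1 J)
  · rw [← filter_union]
    exact disjoint_filter_filter (disj2 J)

omit hf in
theorem en_V {γ : ℕ × ℕ} (h : γ ∈ gaps V) : en H (W ∪ V) γ = en H V γ := by
  unfold en
  congr 1
  rw [filter_union]
  have h1 := gap_V J h
  have h2 := J.lt
  have e : W.filter (fun r => γ.2 ≤ r ∧ St H γ.1 γ.2 r) = ∅ := by
    rw [filter_eq_empty_iff]
    rintro r hr ⟨h3, _⟩
    have := J.leW _ hr
    omega
  rw [e, empty_union]

theorem en_far {a b : ℕ} (ha : a ≤ m) (hb : b ≤ q) (h : St H a b q) :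
    en H (W ∪ V) (a, b) = t := by
  unfold en
  apply le_antisymm
  · refine Finset.sup_le fun r hr => ?_
    rw [mem_filter, mem_union] at hr
    rcases hr.1 with h1 | h1
    · have := J.leW _ h1
      have := J.lt
      have := J.geV _ J.qV
      simp only [id]
      omega
    · exact J.geV _ h1
  · have h1 : q ≤ t := J.leV _ J.tV
    refine Finset.le_sup (f := id) (b := t) ?_
    rw [mem_filter, mem_union]
    exact ⟨Or.inr J.tV, hb.trans h1, (St_far hf ha hb h1).2 h⟩

theorem en_J : en H (W ∪ V) (m, q) = t :=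
  en_far J hf le_rfl le_rfl (St_junction hf)

omit hf in
theorem en_W_false {γ : ℕ × ℕ} (h : γ ∈ gaps W) (h' : ¬ St H γ.1 γ.2 q) :
    en H (W ∪ V) γ = en H W γ := by
  unfold en
  congr 1
  rw [filter_union]
  have e : V.filter (fun r => γ.2 ≤ r ∧ St H γ.1 γ.2 r) = ∅ := by
    rw [filter_eq_empty_iff]
    rintro r hr ⟨_, h4⟩
    exact h' (h4.mono (J.leV _ hr))
  rw [e, union_empty]

omit hf in
theorem en_W_true {γ : ℕ × ℕ} (h : γ ∈ gaps W) (h' : St H γ.1 γ.2 q) : en H W γ = m := by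
  unfold en
  have h1 := gap_W J h
  have h2 := J.lt
  apply le_antisymm
  · refine Finset.sup_le fun r hr => ?_
    rw [mem_filter] at hr
    exact J.leW _ hr.1
  · refine Finset.le_sup (f := id) (b := m) ?_
    rw [mem_filter]
    exact ⟨J.mW, h1.2, h'.mono (by omega)⟩

/-- The label of a true gap which is not the last one does not change. -/
theorem lab_eq {x : ℕ} (hx : ∀ a ∈ W, x ≤ a) {γ δ : ℕ × ℕ} (h : γ ∈ gaps W) (hd : δ ∈ gaps W)
    (h' : St H γ.1 γ.2 q) (hd' : St H δ.1 δ.2 q) (hlt : γ.2 ≤ δ.1) :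
    H (tr x γ.1 γ.2) (en H (W ∪ V) γ) = H (tr x γ.1 γ.2) (en H W γ) := by
  have h1 := gap_W J h
  have h2 := gap_W J hd
  have h3 := J.lt
  have h4 : q ≤ t := J.leV _ J.tV
  have e1 : en H (W ∪ V) γ = t := en_far J hf (a := γ.1) (b := γ.2) (by omega) (by omega) h'
  rw [e1, en_W_true J h h']
  have hz : tr x γ.1 γ.2 ≤ FF δ.1 := by
    have := hx _ (mem_gaps.1 h).1
    exact tr_le (by omega) (by omega) hlt
  have hd2 : St H δ.1 δ.2 t := (St_far hf (by omega) (by omega) h4).2 hd'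
  rw [hd2 _ hz t (by omega) le_rfl, hd2 _ hz m (by omega) (by omega)]

theorem main_sum {R : Type} [CommRing R] (μ : R) {x : ℕ} (hx : ∀ a ∈ W, x ≤ a) {k : ℕ}
    (hk : ∀ z s, H z s < k) :
    ∃ (n : ℕ) (δ : ℤ), |δ| < k ∧ EF H R μ x (W ∪ V) = EF H R μ x W +
      μ ^ n * (δ + μ * (H (tr x m q) t + EF H R μ x V)) := by
  classical
  have hk0 : 0 < k := lt_of_le_of_lt (Nat.zero_le _) (hk 0 0)
  set T := (gaps W).filter fun j => St H j.1 j.2 q with hT
  -- the sum over the gaps of `V`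
  have e1 : ∑ γ ∈ gaps V, μ ^ (1 + dep H (W ∪ V) γ) * (H (tr x γ.1 γ.2) (en H (W ∪ V) γ) : R) =
      μ ^ (T.card + 1) * EF H R μ x V := by
    unfold EF
    rw [mul_sum]
    refine sum_congr rfl fun γ hγ => ?_
    rw [dep_V J hf hγ, en_V J hγ, ← hT]
    ring
  -- the junction
  have e2 : ∑ γ ∈ ({(m, q)} : Finset (ℕ × ℕ)), μ ^ (1 + dep H (W ∪ V) γ) *
      (H (tr x γ.1 γ.2) (en H (W ∪ V) γ) : R) = μ ^ (T.card + 1) * (H (tr x m q) t : R) := by
    rw [sum_singleton, dep_J J, en_J J hf, ← hT]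
    ring
  -- the gaps of `W`
  have e3 : ∃ (n : ℕ) (δ : ℤ), |δ| < k ∧ (T.card = n) ∧
      ∑ γ ∈ gaps W, μ ^ (1 + dep H (W ∪ V) γ) *
      (H (tr x γ.1 γ.2) (en H (W ∪ V) γ) : R) = EF H R μ x W + μ ^ n * (δ : R) := by
    rcases T.eq_empty_or_nonempty with hE | hN
    · refine ⟨0, 0, by simpa using hk0, by rw [hE]; rfl, ?_⟩
      rw [Int.cast_zero, mul_zero, add_zero]
      unfold EF
      refine sum_congr rfl fun γ hγ => ?_
      have h1 : ¬ St H γ.1 γ.2 q := fun h => by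
        have : γ ∈ T := mem_filter.2 ⟨hγ, h⟩
        rw [hE] at this
        simp at this
      rw [dep_W J hγ, en_W_false J hγ h1]
    · obtain ⟨δ, hδ, hmax⟩ := T.exists_max_image (fun γ => γ.1) hN
      rw [hT, mem_filter] at hδ
      have hdep : dep H W δ + 1 = T.card := by
        have h1 : (gaps W).filter (fun j => j.2 ≤ δ.1 ∧ St H j.1 j.2 δ.2) = T.erase δ := by
          ext j
          rw [mem_filter, mem_erase, hT, mem_filter]
          have h2 := gap_W J hδ.1
          have h3 := J.lt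
          constructor
          · rintro ⟨a1, a2, a3⟩
            refine ⟨fun h => by rw [h] at a2; omega, a1, fun z hz c c1 c2 => ?_⟩
            rcases le_total c δ.2 with h4 | h4
            · exact a3 z hz c c1 h4
            · have h5 := gap_W J a1
              rw [hδ.2 z (hz.trans (FF_mono (by omega))) c h4 c2]
              exact a3 z hz δ.2 (by omega) le_rfl
          · rintro ⟨a1, a2, a3⟩
            have h5 := hmax j (by rw [hT, mem_filter]; exact ⟨a2, a3⟩)
            have h6 := gap_W J a2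
            rcases gaps_cmp a2 hδ.1 with h7 | h7 | h7
            · exact absurd h7 a1
            · exact ⟨a2, h7, a3.mono (by omega)⟩
            · omega
        unfold dep
        rw [h1, card_erase_of_mem (by rw [hT, mem_filter]; exact hδ)]
        have : 0 < T.card := card_pos.2 hN
        omega
      refine ⟨T.card, (H (tr x δ.1 δ.2) (en H (W ∪ V) δ) : ℤ) - H (tr x δ.1 δ.2) (en H W δ),
        ?_, rfl, ?_⟩
      · have a1 := hk (tr x δ.1 δ.2) (en H (W ∪ V) δ)
        have a2 := hk (tr x δ.1 δ.2) (en H W δ)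
        rw [abs_lt]
        omega
      · unfold EF
        rw [← add_sum_erase _ _ hδ.1, ← add_sum_erase (gaps W) (fun γ => μ ^ (1 + dep H W γ) *
          (H (tr x γ.1 γ.2) (en H W γ) : R)) hδ.1]
        have h1 : ∑ γ ∈ (gaps W).erase δ, μ ^ (1 + dep H (W ∪ V) γ) *
            (H (tr x γ.1 γ.2) (en H (W ∪ V) γ) : R) =
            ∑ γ ∈ (gaps W).erase δ, μ ^ (1 + dep H W γ) * (H (tr x γ.1 γ.2) (en H W γ) : R) := by
          refine sum_congr rfl fun γ hγ => ?_
          rw [mem_erase] at hγ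
          rw [dep_W J hγ.2]
          by_cases h : St H γ.1 γ.2 q
          · have h5 := hmax γ (by rw [hT, mem_filter]; exact ⟨hγ.2, h⟩)
            have h6 := gap_W J hγ.2
            have h7 := gap_W J hδ.1
            have h8 : γ.2 ≤ δ.1 := by
              rcases gaps_cmp hγ.2 hδ.1 with h8 | h8 | h8
              · exact absurd h8 hγ.1
              · exact h8
              · omega
            rw [lab_eq J hf hx hγ.2 hδ.1 h hδ.2 h8]
          · rw [en_W_false J hγ.2 h]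
        rw [h1, dep_W J hδ.1, ← hdep]
        push_cast
        ring
  obtain ⟨n, δ, hδ, hn, e3⟩ := e3
  refine ⟨n, δ, hδ, ?_⟩
  have e0 : EF H R μ x (W ∪ V) = ∑ γ ∈ gaps (W ∪ V), μ ^ (1 + dep H (W ∪ V) γ) *
      (H (tr x γ.1 γ.2) (en H (W ∪ V) γ) : R) := rfl
  rw [e0, gaps_union J, sum_union (disj2 J), sum_union (disj1 J), e1, e2, e3, hn]
  ring

end

end Pool.Agent.N579.HI
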