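import Pool.Agent.N579.HI.Appr
import Pool.Agent.H645R2.HT.Univ

/-! Sequences computed by a solution. -/

namespace Pool.Agent.N579.HI

open Pool.Agent.H645R2.HT Pool.Agent.Helper446 Pool.Agent.Helper446.RE
  Pool.Agent.Helper446.Oracle

theorem exists_seq {X : Set ℕ} {P : ℕ → Prop} (r1 : REIn X fun n : ℕ => P n)
    (r2 : REIn X fun n : ℕ => ¬ P n) (hP : ∀ N, ∃ h, P h ∧ N < la h) :
    ∃ f : ℕ → ℕ, TotIn X f ∧ (∀ n, P (f n)) ∧ ∀ n, mu (f n) < la (f (n + 1)) := by
  classical
  have hex : ∀ m, ∃ h, P h ∧ mu m < la h := fun m => hP (mu m)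
  let nx : ℕ → ℕ := fun m => Nat.find (hex m)
  have hnx : ∀ m, P (nx m) ∧ mu m < la (nx m) := fun m => Nat.find_spec (hex m)
  have hg : REIn X fun p : ℕ × ℕ => nx p.1 = p.2 := by
    have h1 : REIn X fun p : ℕ × ℕ => (P p.2 ∧ mu p.1 < la p.2) ∧
        ∀ i < p.2, (¬ P i ∨ la i < mu p.1 + 1) := by
      refine REIn.and (REIn.and (r1.comp (f := fun p : ℕ × ℕ => p.2) (by fun_prop))
        (REIn.of_re (RE.lt (by fun_prop) (by fun_prop)))) ?_
      refine REIn.all_lt (S := fun (p : ℕ × ℕ) i => ¬ P i ∨ la i < mu p.1 + 1) ?_ (by fun_prop)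
      refine REIn.or (r2.comp (f := fun p : (ℕ × ℕ) × ℕ => p.2) (by fun_prop))
        (REIn.of_re (RE.lt (by fun_prop) (by fun_prop)))
    refine h1.of_eq fun p => ?_
    constructor
    · rintro ⟨h2, h3⟩
      refine (Nat.find_eq_iff _).2 ⟨h2, fun i hi h4 => ?_⟩
      rcases h3 i hi with h5 | h5
      · exact h5 h4.1
      · omega
    · intro h2
      obtain ⟨h3, h4⟩ := (Nat.find_eq_iff _).1 h2
      refine ⟨h3, fun i hi => ?_⟩
      by_cases h5 : P i
      · right
        have := h4 i hi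
        by_contra h6
        exact this ⟨h5, by omega⟩
      · exact Or.inl h5
  have hT : TotIn X nx := recursiveIn_of_graph hg
  refine ⟨fun n => Nat.rec (motive := fun _ => ℕ) (nx 0) (fun _ r => nx r) n, ?_, ?_, ?_⟩
  · have h1 : TotIn X fun p : ℕ => nx (p.unpair.2.unpair.2) :=
      hT.comp (TotIn.of_comp (f := fun p : ℕ => p.unpair.2.unpair.2) (by fun_prop))
    have h2 := TotIn.prec (TotIn.of_comp (A := X) (f := fun _ : ℕ => nx 0) (by fun_prop)) h1
    have h3 := h2.comp (TotIn.of_comp (A := X) (f := fun n : ℕ => Nat.pair 0 n) (by fun_prop))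
    refine h3.of_eq fun n => ?_
    simp only [Nat.unpair_pair]
  · intro n
    cases n with
    | zero => exact (hnx 0).1
    | succ n => exact (hnx _).1
  · intro n
    exact (hnx _).2

theorem tot_tr {A : Set ℕ} {f : ℕ → ℕ} (h : TotIn A f) :
    TuringReducible (fun n : ℕ => Part.some (f n)) (Defs.chi A) := by
  refine turingReducible_fun_iff.2 ((graph_of_recursiveIn h).of_eq fun p => ?_)
  rw [Part.mem_some_iff]
  exact eq_comm

end Pool.Agent.N579.HI
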